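import Mathlib

set_option autoImplicit false

namespace Pool.Agent.Lib.MP_f8b1fe_co

open Finset

variable {Kp d K : ℕ}

/-- sorting the classes of an equipartition -/
lemma exists_sorted (e₀ : Fin Kp × Fin d ≃ Fin K) :
    ∃ e : Fin Kp × Fin d ≃ Fin K, (∀ κ, StrictMono (fun t => e (κ, t))) ∧
      ∀ κ t, ∃ t', e (κ, t) = e₀ (κ, t') := by
  let s : Fin Kp → Equiv.Perm (Fin d) := fun κ => Tuple.sort (fun t => e₀ (κ, t))
  let sh : Fin Kp × Fin d ≃ Fin Kp × Fin d :=
    { toFun := fun p => (p.1, s p.1 p.2)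
      invFun := fun p => (p.1, (s p.1).symm p.2)
      left_inv := fun p => by simp
      right_inv := fun p => by simp }
  refine ⟨sh.trans e₀, ?_, ?_⟩
  · intro κ
    have hmono : Monotone (fun t => e₀ (κ, s κ t)) := Tuple.monotone_sort (fun t => e₀ (κ, t))
    apply hmono.strictMono_of_injective
    intro t t' h
    have h1 := e₀.injective h
    have h2 : s κ t = s κ t' := (Prod.mk.inj h1).2
    exact (s κ).injective h2
  · intro κ t
    exact ⟨s κ t, rfl⟩

lemma exists_choice (hK : K = Kp * d) (hKp : 0 < Kp) (A : Finset (Fin K)) (hA : d ≤ A.card) :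
    ∃ e : Fin Kp × Fin d ≃ Fin K, (∀ κ, StrictMono (fun t => e (κ, t))) ∧
      ∃ κ, ∀ t, e (κ, t) ∈ A := by
  classical
  obtain ⟨S, hSA, hS⟩ := Finset.exists_subset_card_eq hA
  let a : Fin d ↪o Fin K := S.orderEmbOfFin hS
  have ha : ∀ t, a t ∈ S := fun t => S.orderEmbOfFin_mem hS t
  let κ0 : Fin Kp := ⟨0, hKp⟩
  let s : Finset (Fin Kp × Fin d) := univ.filter (fun p => p.1 = κ0)
  let f : Fin Kp × Fin d → Fin K := fun p => a p.2
  have hcard : Fintype.card (Fin Kp × Fin d) = (univ : Finset (Fin K)).card := by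
    simp [hK]
  obtain ⟨g, hg⟩ := Finset.exists_equiv_extend_of_card_eq hcard (s := s) (f := f)
    (subset_univ _) (by
      intro p hp q hq h
      have hp' : p.1 = κ0 := by simpa [s] using hp
      have hq' : q.1 = κ0 := by simpa [s] using hq
      have := a.injective h
      exact Prod.ext (hp'.trans hq'.symm) this)
  let e₀ : Fin Kp × Fin d ≃ Fin K := g.trans (Equiv.subtypeUnivEquiv (fun x => mem_univ x))
  have he₀ : ∀ t, e₀ (κ0, t) = a t := by
    intro t
    have := hg (κ0, t) (by simp [s])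
    exact this
  obtain ⟨e, he1, he2⟩ := exists_sorted e₀
  refine ⟨e, he1, κ0, fun t => ?_⟩
  obtain ⟨t', ht'⟩ := he2 κ0 t
  rw [ht', he₀]
  exact hSA (ha t')

/-- existence of a real `R > 1` with `(T - 1) R^K ≤ T` -/
lemma exists_R (T : ℕ) (hT : 0 < T) (K : ℕ) (hK : 2 ≤ K) :
    ∃ R : ℝ, 1 < R ∧ ((T : ℝ) - 1) * R ^ K ≤ T := by
  have hT' : (1 : ℝ) ≤ T := by exact_mod_cast hT
  have hK' : (2 : ℝ) ≤ K := by exact_mod_cast hK
  set y : ℝ := 1 / (K * T) with hy
  have hy0 : 0 < y := by positivity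
  have hy1 : y ≤ 1 / 2 := by
    rw [hy]
    apply one_div_le_one_div_of_le (by norm_num)
    nlinarith
  refine ⟨1 / (1 - y), ?_, ?_⟩
  · rw [lt_div_iff₀ (by linarith)]; linarith
  · have h1 : 1 + (K : ℝ) * (-y) ≤ (1 + (-y)) ^ K := one_add_mul_le_pow (by linarith) K
    have h2 : (K : ℝ) * y = 1 / T := by
      rw [hy]; field_simp
    have h3 : ((T : ℝ) - 1) / T ≤ (1 - y) ^ K := by
      have : ((T : ℝ) - 1) / T = 1 - 1 / T := by field_simp
      rw [this, ← h2]
      calc 1 - (K : ℝ) * y = 1 + K * (-y) := by ring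
        _ ≤ (1 + (-y)) ^ K := h1
        _ = (1 - y) ^ K := by ring
    have h4 : 0 < (1 - y) ^ K := by
      apply pow_pos; linarith
    rw [one_div, inv_pow, ← div_eq_mul_inv, div_le_iff₀ h4]
    rw [div_le_iff₀ (by linarith)] at h3
    linarith

end Pool.Agent.Lib.MP_f8b1fe_co
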