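import Mathlib

set_option autoImplicit false

namespace Pool.Agent.Lib.MP_f8b1fe_co

open Finset

/-- the averaging step -/
theorem averaging {P C : Type} [Fintype P] [DecidableEq P] [Fintype C] [Nonempty C]
    {K D : ℕ} (hit : C → Finset (Fin K) → Prop) [∀ c A, Decidable (hit c A)]
    (hhit : ∀ A : Finset (Fin K), D + 1 ≤ A.card → ∃ c, hit c A)
    (R : ℝ) (hR : 1 ≤ R) (hT : ((Fintype.card C : ℝ) - 1) * R ^ K ≤ Fintype.card C)
    (I : Finset (Finset P)) (N : ℕ) :
    ∃ f : P → C, ∑ W ∈ (Fintype.piFinset (fun _ : Fin K => I)).filter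
        (fun W => ∀ p, ¬ hit (f p) (univ.filter (fun b => p ∈ W b))),
        R ^ ((N + 1) * ∑ b, (W b).card) ≤
      R ^ (D * Fintype.card P) * (∑ W ∈ I, R ^ (N * W.card)) ^ K := by
  classical
  set T : ℝ := (Fintype.card C : ℝ) with hTdef
  have hT1 : 1 ≤ T := by
    have : 1 ≤ Fintype.card C := Fintype.card_pos
    rw [hTdef]
    exact_mod_cast this
  have hR0 : 0 < R := by linarith
  -- pointwise bound
  have hpt : ∀ A : Finset (Fin K),
      ((univ.filter (fun c : C => ¬ hit c A)).card : ℝ) * R ^ A.card ≤ T * R ^ D := by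
    intro A
    by_cases hA : D + 1 ≤ A.card
    · obtain ⟨c, hc⟩ := hhit A hA
      have h1 : (univ.filter (fun c : C => ¬ hit c A)).card + 1 ≤ Fintype.card C := by
        have : (univ.filter (fun c : C => ¬ hit c A)) ⊆ univ.erase c := by
          intro c' hc'
          rw [mem_filter] at hc'
          refine mem_erase.2 ⟨fun h => hc'.2 (h ▸ hc), mem_univ _⟩
        have h2 := card_le_card this
        rw [card_erase_of_mem (mem_univ c), card_univ] at h2
        have : 1 ≤ Fintype.card C := Fintype.card_pos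
        omega
      have h2 : ((univ.filter (fun c : C => ¬ hit c A)).card : ℝ) ≤ T - 1 := by
        have : ((univ.filter (fun c : C => ¬ hit c A)).card : ℝ) + 1 ≤ T := by
          rw [hTdef]; exact_mod_cast h1
        linarith
      have h3 : A.card ≤ K := by simpa using card_le_univ A
      calc ((univ.filter (fun c : C => ¬ hit c A)).card : ℝ) * R ^ A.card
          ≤ (T - 1) * R ^ K := by
            apply mul_le_mul h2 (pow_le_pow_right₀ hR h3) (by positivity) (by linarith)
        _ ≤ T := hT
        _ ≤ T * R ^ D := le_mul_of_one_le_right (by linarith) (one_le_pow₀ hR)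
    · push Not at hA
      have h1 : ((univ.filter (fun c : C => ¬ hit c A)).card : ℝ) ≤ T := by
        rw [hTdef]; exact_mod_cast card_le_univ _
      apply mul_le_mul h1 (pow_le_pow_right₀ hR (by omega)) (by positivity) (by linarith)
  -- double sum
  set J := Fintype.piFinset (fun _ : Fin K => I) with hJ
  have hswap : ∑ f : P → C, ∑ W ∈ J.filter
        (fun W => ∀ p, ¬ hit (f p) (univ.filter (fun b => p ∈ W b))),
        R ^ ((N + 1) * ∑ b, (W b).card) =
      ∑ W ∈ J, R ^ ((N + 1) * ∑ b, (W b).card) *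
        ∏ p, ((univ.filter (fun c : C => ¬ hit c (univ.filter (fun b => p ∈ W b)))).card : ℝ) := by
    simp only [sum_filter]
    rw [sum_comm]
    refine sum_congr rfl fun W _ => ?_
    rw [← sum_filter, sum_const, nsmul_eq_mul, mul_comm]
    congr 1
    have h1 : (univ.filter (fun f : P → C => ∀ p, ¬ hit (f p) (univ.filter (fun b => p ∈ W b)))) =
        Fintype.piFinset (fun p => univ.filter
          (fun c : C => ¬ hit c (univ.filter (fun b => p ∈ W b)))) := by
      ext f; simp [Fintype.mem_piFinset]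
    rw [h1, Fintype.card_piFinset]
    push_cast
    rfl
  have hdc : ∀ W : Fin K → Finset P,
      ∑ p, (univ.filter (fun b => p ∈ W b)).card = ∑ b, (W b).card := by
    intro W
    simp only [card_eq_sum_ones, sum_filter]
    rw [sum_comm]
    refine sum_congr rfl fun b _ => ?_
    rw [← sum_filter]
    simp
  have hW : ∀ W ∈ J, R ^ ((N + 1) * ∑ b, (W b).card) *
        ∏ p, ((univ.filter (fun c : C => ¬ hit c (univ.filter (fun b => p ∈ W b)))).card : ℝ) ≤
      (T ^ Fintype.card P * R ^ (D * Fintype.card P)) * ∏ b, R ^ (N * (W b).card) := by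
    intro W _
    have h1 : R ^ (∑ b, (W b).card) *
        ∏ p, ((univ.filter (fun c : C => ¬ hit c (univ.filter (fun b => p ∈ W b)))).card : ℝ) ≤
        T ^ Fintype.card P * R ^ (D * Fintype.card P) := by
      rw [← hdc, ← prod_pow_eq_pow_sum, ← prod_mul_distrib]
      calc ∏ p, (R ^ (univ.filter (fun b => p ∈ W b)).card *
            ((univ.filter (fun c : C => ¬ hit c (univ.filter (fun b => p ∈ W b)))).card : ℝ))
          ≤ ∏ _p : P, (T * R ^ D) := by
            apply prod_le_prod
            · intro p _; positivity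
            · intro p _; rw [mul_comm]; exact hpt _
        _ = T ^ Fintype.card P * R ^ (D * Fintype.card P) := by
            rw [prod_const, card_univ, mul_pow, ← pow_mul]
    have h2 : R ^ ((N + 1) * ∑ b, (W b).card) =
        R ^ (∑ b, (W b).card) * ∏ b, R ^ (N * (W b).card) := by
      rw [prod_pow_eq_pow_sum, ← mul_sum, ← pow_add]
      congr 1; ring
    rw [h2]
    have h3 : 0 ≤ ∏ b, R ^ (N * (W b).card) := prod_nonneg fun b _ => by positivity
    calc R ^ (∑ b, (W b).card) * (∏ b, R ^ (N * (W b).card)) *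
        ∏ p, ((univ.filter (fun c : C => ¬ hit c (univ.filter (fun b => p ∈ W b)))).card : ℝ)
        = (R ^ (∑ b, (W b).card) *
          ∏ p, ((univ.filter (fun c : C => ¬ hit c (univ.filter (fun b => p ∈ W b)))).card : ℝ)) *
          ∏ b, R ^ (N * (W b).card) := by ring
      _ ≤ _ := mul_le_mul_of_nonneg_right h1 h3
  have hprod : ∑ W ∈ J, ∏ b, R ^ (N * (W b).card) = (∑ W ∈ I, R ^ (N * W.card)) ^ K := by
    rw [hJ, sum_pow']
  have htotal : ∑ f : P → C, ∑ W ∈ J.filter
        (fun W => ∀ p, ¬ hit (f p) (univ.filter (fun b => p ∈ W b))),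
        R ^ ((N + 1) * ∑ b, (W b).card) ≤
      ∑ _f : P → C, R ^ (D * Fintype.card P) * (∑ W ∈ I, R ^ (N * W.card)) ^ K := by
    rw [hswap]
    calc _ ≤ ∑ W ∈ J, (T ^ Fintype.card P * R ^ (D * Fintype.card P)) *
          ∏ b, R ^ (N * (W b).card) := sum_le_sum hW
      _ = (T ^ Fintype.card P * R ^ (D * Fintype.card P)) *
          (∑ W ∈ I, R ^ (N * W.card)) ^ K := by rw [← mul_sum, hprod]
      _ = _ := by
          rw [sum_const, card_univ, nsmul_eq_mul]
          have : ((Fintype.card (P → C) : ℕ) : ℝ) = T ^ Fintype.card P := by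
            rw [Fintype.card_fun]; push_cast; rfl
          rw [this]; ring
  obtain ⟨f, _, hf⟩ := exists_le_of_sum_le univ_nonempty htotal
  exact ⟨f, hf⟩

end Pool.Agent.Lib.MP_f8b1fe_co
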