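import Mathlib

set_option autoImplicit false

namespace Pool.Agent.Lib.MP_f8b1fe_co

open Set Filter Topology

/-- A continuous choice of the hyperplane through `n` moving vectors of an `n+1`-dimensional
space. -/
theorem exists_continuous_hyperplane {W : Type*} [NormedAddCommGroup W] [NormedSpace ℝ W]
    [FiniteDimensional ℝ W] {X ι : Type*} [Finite X] [Fintype ι]
    (hι : Fintype.card ι + 1 = Module.finrank ℝ W) (σ : ι → X) (a : W) (w₀ : X → W)
    (g₀ : W →L[ℝ] ℝ) (h₀ : ∀ i, g₀ (w₀ (σ i)) = 0)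
    (hlin : LinearIndependent ℝ (fun i => w₀ (σ i))) (ha : g₀ a ≠ 0) :
    ∃ G : (X → W) → (W →L[ℝ] ℝ), ContinuousAt G w₀ ∧ G w₀ = g₀ ∧
      ∀ᶠ w in 𝓝 w₀, ∀ i, G w (w (σ i)) = 0 := by
  classical
  have : Fintype X := Fintype.ofFinite X
  -- the spanning family
  let b : Option ι → W := fun o => o.elim a (fun i => w₀ (σ i))
  have hb : LinearIndependent ℝ b := by
    rw [linearIndependent_option]
    refine ⟨hlin, ?_⟩
    intro hmem
    have hker : Submodule.span ℝ (range (b ∘ (some : ι → Option ι))) ≤ g₀.toLinearMap.ker := by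
      rw [Submodule.span_le]
      rintro _ ⟨i, rfl⟩
      exact h₀ i
    exact ha (hker hmem)
  have hspan : Submodule.span ℝ (range b) = ⊤ := by
    apply hb.span_eq_top_of_card_eq_finrank'
    rw [Fintype.card_option, hι]
  let Φ : (X → W) → ((W →L[ℝ] ℝ) →L[ℝ] ((ι → ℝ) × ℝ)) := fun w =>
    (ContinuousLinearMap.pi (fun i => ContinuousLinearMap.apply ℝ ℝ (w (σ i)))).prod
      (ContinuousLinearMap.apply ℝ ℝ a)
  have hΦ : Continuous Φ := by
    rw [continuous_clm_apply]
    intro g
    simp only [Φ]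
    have : (fun x : X → W => ((ContinuousLinearMap.pi (fun i =>
        ContinuousLinearMap.apply ℝ ℝ (x (σ i)))).prod (ContinuousLinearMap.apply ℝ ℝ a)) g) =
        fun x => ((fun i => g (x (σ i))), g a) := by
      ext x <;> simp
    rw [this]
    fun_prop
  have hinj : Function.Injective (Φ w₀) := by
    rw [injective_iff_map_eq_zero]
    intro g hg
    have h1 : ∀ i, g (w₀ (σ i)) = 0 := by
      intro i
      have := congrArg (fun p : (ι → ℝ) × ℝ => p.1 i) hg
      simpa [Φ] using this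
    have h2 : g a = 0 := by
      have := congrArg (fun p : (ι → ℝ) × ℝ => p.2) hg
      simpa [Φ] using this
    have h3 : (⊤ : Submodule ℝ W) ≤ g.toLinearMap.ker := by
      rw [← hspan, Submodule.span_le]
      rintro _ ⟨o, rfl⟩
      cases o with
      | none => exact h2
      | some i => exact h1 i
    ext x
    exact h3 (Submodule.mem_top (x := x))
  have hfin : Module.finrank ℝ (W →L[ℝ] ℝ) = Module.finrank ℝ ((ι → ℝ) × ℝ) := by
    have h1 : Module.finrank ℝ (W →L[ℝ] ℝ) = Module.finrank ℝ (W →ₗ[ℝ] ℝ) :=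
      LinearEquiv.finrank_eq (LinearMap.toContinuousLinearMap (𝕜 := ℝ) (E := W) (F' := ℝ)).symm
    rw [h1, Module.finrank_linearMap, Module.finrank_self, mul_one, Module.finrank_prod,
      Module.finrank_pi, Module.finrank_self, hι]
  let e0 : (W →L[ℝ] ℝ) ≃ₗ[ℝ] ((ι → ℝ) × ℝ) :=
    LinearMap.linearEquivOfInjective (Φ w₀).toLinearMap hinj hfin
  let e : (W →L[ℝ] ℝ) ≃L[ℝ] ((ι → ℝ) × ℝ) := e0.toContinuousLinearEquiv
  have he : (e : (W →L[ℝ] ℝ) →L[ℝ] ((ι → ℝ) × ℝ)) = Φ w₀ := by
    apply ContinuousLinearMap.ext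
    intro g
    exact LinearMap.linearEquivOfInjective_apply hinj hfin g
  let G : (X → W) → (W →L[ℝ] ℝ) := fun w => (Φ w).inverse (0, g₀ a)
  refine ⟨G, ?_, ?_, ?_⟩
  · have h1 : ContinuousAt ContinuousLinearMap.inverse (Φ w₀) := by
      rw [← he]
      exact (contDiffAt_map_inverse (n := 1) e).continuousAt
    have h2 : ContinuousAt (fun w => (Φ w).inverse) w₀ :=
      ContinuousAt.comp (g := ContinuousLinearMap.inverse) h1 hΦ.continuousAt
    exact h2.clm_apply continuousAt_const
  · have h1 : G w₀ = e.symm (0, g₀ a) := by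
      simp only [G]
      rw [← he, ContinuousLinearMap.inverse_equiv]
      rfl
    rw [h1, ContinuousLinearEquiv.symm_apply_eq]
    have h2 : e g₀ = Φ w₀ g₀ := by rw [← he]; rfl
    rw [h2]
    simp only [Φ]
    ext i
    · simp [h₀]
    · simp
  · have h1 : range (ContinuousLinearEquiv.toContinuousLinearMap :
        ((W →L[ℝ] ℝ) ≃L[ℝ] ((ι → ℝ) × ℝ)) → _) ∈ 𝓝 (Φ w₀) := by
      rw [← he]; exact ContinuousLinearEquiv.nhds e
    have h2 := hΦ.continuousAt.eventually h1
    filter_upwards [h2] with w hw i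
    obtain ⟨e', he'⟩ := hw
    have h3 : Φ w (G w) = (0, g₀ a) := by
      simp only [G]
      rw [← he', ContinuousLinearMap.inverse_equiv]
      simp
    have h4 := congrArg (fun p : (ι → ℝ) × ℝ => p.1 i) h3
    simpa [Φ] using h4

end Pool.Agent.Lib.MP_f8b1fe_co
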