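import Mathlib

set_option autoImplicit false

namespace Pool.Agent.Lib.MP_f8b1fe_co

open Set

/-- Euclidean space of dimension `d`. -/
abbrev Eu (d : ℕ) := EuclideanSpace ℝ (Fin d)

/-- A simplicial `d`-polytope (`d ≥ 1`): the convex hull of a finite set of points of `ℝ^d`, with
nonempty interior (so of dimension `d`), all of whose proper faces are simplices.  A face is an
exposed subset (the set of points of `Q` at which a linear functional attains its maximum over `Q`),
proper if it is not `Q` itself; a simplex is the convex hull of an affinely independent finite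
set. -/
structure IsSimplicialPolytope {d : ℕ} (Q : Set (Eu d)) : Prop where
  dim_pos : 0 < d
  polytope : ∃ S : Finset (Eu d), Q = convexHull ℝ (S : Set (Eu d))
  full_dim : (interior Q).Nonempty
  simplicial : ∀ F : Set (Eu d), IsExposed ℝ Q F → F ≠ Q →
    ∃ s : Finset (Eu d), AffineIndependent ℝ ((↑) : s → Eu d) ∧ F = convexHull ℝ (s : Set (Eu d))

variable {d : ℕ} {Q : Set (Eu d)}

/-- maximizers of a functional over the hull of a finite set -/
lemma maximizers_convexHull {E : Type*} [NormedAddCommGroup E] [NormedSpace ℝ E]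
    (S : Finset E) (l : StrongDual ℝ E) (M : ℝ) (hM : ∀ s ∈ S, l s ≤ M) {z : E}
    (hz : z ∈ convexHull ℝ (S : Set E)) (hlz : M ≤ l z) :
    z ∈ convexHull ℝ {s : E | s ∈ S ∧ l s = M} := by
  classical
  rw [Finset.mem_convexHull'] at hz
  obtain ⟨w, hw0, hw1, hwz⟩ := hz
  have hsum : ∑ y ∈ S, w y * (M - l y) = M - l z := by
    have h1 : l z = ∑ y ∈ S, w y * l y := by
      rw [← hwz, map_sum]
      simp
    rw [h1]
    simp only [mul_sub, Finset.sum_sub_distrib]
    rw [← Finset.sum_mul, hw1, one_mul]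
  have hnn : ∀ y ∈ S, 0 ≤ w y * (M - l y) := fun y hy =>
    mul_nonneg (hw0 y hy) (sub_nonneg.2 (hM y hy))
  have hz0 : ∑ y ∈ S, w y * (M - l y) = 0 :=
    le_antisymm (by rw [hsum]; linarith) (Finset.sum_nonneg hnn)
  have hall := (Finset.sum_eq_zero_iff_of_nonneg hnn).1 hz0
  have key : ({s : E | s ∈ S ∧ l s = M}) = ((S.filter (fun s => l s = M) : Finset E) : Set E) := by
    ext s; simp
  rw [key, Finset.mem_convexHull']
  refine ⟨w, fun y hy => hw0 y (Finset.mem_filter.1 hy).1, ?_, ?_⟩
  · rw [Finset.sum_filter_of_ne, hw1]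
    intro y hy hne
    have := hall y hy
    rcases mul_eq_zero.1 this with h | h
    · exact absurd h hne
    · linarith
  · rw [Finset.sum_filter_of_ne, hwz]
    intro y hy hne
    have := hall y hy
    rcases mul_eq_zero.1 this with h | h
    · exact absurd (by simp [h]) hne
    · linarith

/-- The hull of the maximizers of a functional is an exposed face. -/
lemma isExposed_convexHull_of_le {E : Type*} [NormedAddCommGroup E] [NormedSpace ℝ E]
    (S : Finset E) (l : StrongDual ℝ E) (M : ℝ) (hM : ∀ s ∈ S, l s ≤ M) (T : Set E)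
    (hT : T = {s : E | s ∈ S ∧ l s = M}) (hne : T.Nonempty) :
    convexHull ℝ T = {x ∈ convexHull ℝ (S : Set E) | ∀ y ∈ convexHull ℝ (S : Set E), l y ≤ l x} := by
  have hTS : T ⊆ (S : Set E) := by rw [hT]; intro s hs; exact hs.1
  have hlT : ∀ x ∈ convexHull ℝ T, l x = M := by
    have hc : Convex ℝ {x : E | l x = M} := by
      have : {x : E | l x = M} = l.toLinearMap ⁻¹' {M} := by ext; simp
      rw [this]
      exact (convex_singleton M).linear_preimage _
    have : convexHull ℝ T ⊆ {x : E | l x = M} := by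
      apply convexHull_min _ hc
      rw [hT]; intro s hs; exact hs.2
    exact this
  have hlS : ∀ x ∈ convexHull ℝ (S : Set E), l x ≤ M := by
    have hc : Convex ℝ {x : E | l x ≤ M} := convex_halfSpace_le l.toLinearMap.isLinear M
    have : convexHull ℝ (S : Set E) ⊆ {x : E | l x ≤ M} := convexHull_min (fun s hs => hM s hs) hc
    exact this
  ext x
  constructor
  · intro hx
    refine ⟨convexHull_mono hTS hx, fun y hy => ?_⟩
    rw [hlT x hx]; exact hlS y hy
  · rintro ⟨hx, hmax⟩
    obtain ⟨t, ht⟩ := hne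
    have h1 := hmax t (subset_convexHull ℝ _ (hTS ht))
    have h2 : l t = M := hlT t (subset_convexHull ℝ _ ht)
    rw [hT]
    exact maximizers_convexHull S l M hM hx (by rw [← h2]; exact h1)

lemma IsSimplicialPolytope.finite_extremePoints (hQ : IsSimplicialPolytope Q) :
    (Q.extremePoints ℝ).Finite := by
  obtain ⟨S, hS⟩ := hQ.polytope
  refine S.finite_toSet.subset ?_
  rw [hS]
  exact extremePoints_convexHull_subset

lemma IsSimplicialPolytope.isCompact (hQ : IsSimplicialPolytope Q) : IsCompact Q := by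
  obtain ⟨S, hS⟩ := hQ.polytope
  rw [hS]
  exact S.finite_toSet.isCompact_convexHull ℝ

lemma IsSimplicialPolytope.convex (hQ : IsSimplicialPolytope Q) : Convex ℝ Q := by
  obtain ⟨S, hS⟩ := hQ.polytope
  rw [hS]
  exact convex_convexHull ℝ _

lemma IsSimplicialPolytope.eq_convexHull (hQ : IsSimplicialPolytope Q) :
    convexHull ℝ (Q.extremePoints ℝ) = Q := by
  have h := closure_convexHull_extremePoints hQ.isCompact hQ.convex
  rwa [(hQ.finite_extremePoints.isClosed_convexHull ℝ).closure_eq] at h

/-- the finset of vertices -/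
noncomputable def IsSimplicialPolytope.verts (hQ : IsSimplicialPolytope Q) : Finset (Eu d) :=
  hQ.finite_extremePoints.toFinset

lemma IsSimplicialPolytope.mem_verts (hQ : IsSimplicialPolytope Q) (x : Eu d) :
    x ∈ hQ.verts ↔ x ∈ Q.extremePoints ℝ := by
  simp [IsSimplicialPolytope.verts]

lemma IsSimplicialPolytope.convexHull_verts (hQ : IsSimplicialPolytope Q) :
    convexHull ℝ (hQ.verts : Set (Eu d)) = Q := by
  have : (hQ.verts : Set (Eu d)) = Q.extremePoints ℝ := by
    ext x; simp [IsSimplicialPolytope.mem_verts]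
  rw [this, hQ.eq_convexHull]

/-- every subset of vertices lying in a proper face spans a proper face -/
lemma IsSimplicialPolytope.exposed_of_subset (hQ : IsSimplicialPolytope Q) {F : Set (Eu d)}
    (hF : IsExposed ℝ Q F) (hFQ : F ≠ Q) {T : Set (Eu d)} (hTV : T ⊆ Q.extremePoints ℝ)
    (hTF : T ⊆ F) (hT : T.Nonempty) :
    IsExposed ℝ Q (convexHull ℝ T) ∧ convexHull ℝ T ≠ Q := by
  classical
  have hFne : F.Nonempty := hT.mono hTF
  obtain ⟨l, hl⟩ := hF hFne
  obtain ⟨s, hs, hFs⟩ := hQ.simplicial F hF hFQ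
  -- T ⊆ s
  have hFsubQ : F ⊆ Q := hF.subset
  have hTs : T ⊆ (s : Set (Eu d)) := by
    intro t ht
    have h1 : t ∈ F.extremePoints ℝ :=
      inter_extremePoints_subset_extremePoints_of_subset hFsubQ ⟨hTF ht, hTV ht⟩
    rw [hFs] at h1
    exact extremePoints_convexHull_subset h1
  obtain ⟨t₀, ht₀⟩ := hT
  set M := l t₀ with hMdef
  have hmaxF : ∀ x ∈ F, ∀ y ∈ Q, l y ≤ l x := by
    intro x hx y hy
    rw [hl] at hx
    exact hx.2 y hy
  have hlF : ∀ x ∈ F, l x = M := fun x hx =>
    le_antisymm (hmaxF t₀ (hTF ht₀) x (hFsubQ hx)) (hmaxF x hx t₀ (hFsubQ (hTF ht₀)))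
  have hlQ : ∀ y ∈ Q, l y ≤ M := fun y hy => hmaxF t₀ (hTF ht₀) y hy
  have hlt : ∀ y ∈ Q, y ∉ F → l y < M := by
    intro y hy hyF
    refine lt_of_le_of_ne (hlQ y hy) fun h => hyF ?_
    rw [hl]
    exact ⟨hy, fun z hz => by rw [h]; exact hlQ z hz⟩
  -- affine function
  obtain ⟨t, hst, ht_ind, ht_top⟩ := exists_subset_affineIndependent_affineSpan_eq_top hs
  have hbr : affineSpan ℝ (range ((↑) : t → Eu d)) = ⊤ := by
    rw [Subtype.range_coe]; exact ht_top
  let b : AffineBasis t ℝ (Eu d) := ⟨(↑), ht_ind, hbr⟩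
  have : Finite t := finite_of_fin_dim_affineIndependent ℝ ht_ind
  have : Fintype t := Fintype.ofFinite t
  let lam : StrongDual ℝ (Eu d) :=
    -∑ i : t, (if (i : Eu d) ∈ T then 0 else LinearMap.toContinuousLinearMap (b.coord i).linear)
  let c0 : ℝ := -∑ i : t, (if (i : Eu d) ∈ T then 0 else b.coord i 0)
  let a : Eu d → ℝ := fun z => -∑ i : t, (if (i : Eu d) ∈ T then 0 else b.coord i z)
  have ha_lam : ∀ z, a z = lam z + c0 := by
    intro z
    simp only [a, lam, c0, neg_apply, sum_apply]
    rw [← neg_add, ← Finset.sum_add_distrib]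
    congr 1
    refine Finset.sum_congr rfl fun i _ => ?_
    split_ifs
    · simp
    · have h1 := congrFun (AffineMap.decomp' (b.coord i)) z
      simp only [Pi.sub_apply] at h1
      change b.coord i z = (b.coord i).linear z + b.coord i 0
      rw [h1]; ring
  have ha : ∀ i : t, a (i : Eu d) = if (i : Eu d) ∈ T then 0 else -1 := by
    intro i
    have h1 : ∀ j : t, (if (j : Eu d) ∈ T then 0 else b.coord j (i : Eu d)) =
        if j = i then (if (i : Eu d) ∈ T then (0 : ℝ) else 1) else 0 := by
      intro j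
      have h2 : b.coord j (i : Eu d) = if j = i then 1 else 0 := by
        exact b.coord_apply j i
      rw [h2]
      by_cases hji : j = i
      · subst hji; simp
      · simp [hji]
    simp only [a, h1]
    rw [Finset.sum_ite_eq' Finset.univ i]
    simp only [Finset.mem_univ, if_true]
    split_ifs <;> simp
  have hev : ∀ v ∈ hQ.verts, v ∉ F → ∀ᶠ ε in nhdsWithin (0 : ℝ) (Ioi 0), l v + ε * a v < M := by
    intro v hv hvF
    have hlv : l v < M := hlt v ((hQ.mem_verts v).1 hv).1 hvF
    have hcont : Continuous fun ε : ℝ => l v + ε * a v := by fun_prop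
    have := (hcont.tendsto 0).eventually (Iio_mem_nhds (by simpa using hlv : l v + 0 * a v < M))
    exact (this.filter_mono nhdsWithin_le_nhds)
  have hev' : ∀ᶠ ε in nhdsWithin (0 : ℝ) (Ioi 0), ∀ v ∈ hQ.verts, v ∉ F → l v + ε * a v < M := by
    rw [Filter.eventually_all_finset]
    intro v hv
    by_cases hvF : v ∈ F
    · exact Filter.Eventually.of_forall fun ε h => absurd hvF h
    · exact (hev v hv hvF).mono fun ε h _ => h
  obtain ⟨ε, hε, hε0⟩ := (hev'.and self_mem_nhdsWithin).exists
  have hε0 : 0 < ε := hε0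
  -- the vertices in F belong to s
  have hvF : ∀ v ∈ hQ.verts, v ∈ F → v ∈ (s : Set (Eu d)) := by
    intro v hv hvF
    have h1 : v ∈ F.extremePoints ℝ :=
      inter_extremePoints_subset_extremePoints_of_subset hFsubQ ⟨hvF, (hQ.mem_verts v).1 hv⟩
    rw [hFs] at h1
    exact extremePoints_convexHull_subset h1
  set L : StrongDual ℝ (Eu d) := l + ε • lam with hL
  have hLv : ∀ z, L z = l z + ε * a z - ε * c0 := by
    intro z
    rw [ha_lam z, hL]
    simp only [add_apply, smul_apply, smul_eq_mul]
    ring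
  have hval : ∀ v ∈ hQ.verts, (v ∈ T → L v = M - ε * c0) ∧ (v ∉ T → L v < M - ε * c0) := by
    intro v hv
    constructor
    · intro hvT
      have h1 : l v = M := hlF v (hTF hvT)
      have h2 : a v = 0 := by
        have := ha ⟨v, hst (hTs hvT)⟩
        simpa [hvT] using this
      rw [hLv, h1, h2]; ring
    · intro hvT
      rw [hLv]
      by_cases hvF' : v ∈ F
      · have h1 : l v = M := hlF v hvF'
        have h2 : a v = -1 := by
          have := ha ⟨v, hst (hvF v hv hvF')⟩
          simpa [hvT] using this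
        rw [h1, h2]; linarith
      · have := hε v hv hvF'
        linarith
  have hTeq : T = {v : Eu d | v ∈ hQ.verts ∧ L v = M - ε * c0} := by
    ext v
    constructor
    · intro hvT
      have hv : v ∈ hQ.verts := (hQ.mem_verts v).2 (hTV hvT)
      exact ⟨hv, (hval v hv).1 hvT⟩
    · rintro ⟨hv, hv2⟩
      by_contra hvT
      exact absurd hv2 (ne_of_lt ((hval v hv).2 hvT))
  constructor
  · intro _
    refine ⟨L, ?_⟩
    have := isExposed_convexHull_of_le hQ.verts L (M - ε * c0)
      (fun v hv => by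
        by_cases hvT : v ∈ T
        · exact ((hval v hv).1 hvT).le
        · exact ((hval v hv).2 hvT).le) T hTeq ⟨t₀, ht₀⟩
    rw [this, hQ.convexHull_verts]
  · intro h
    have hFc : Convex ℝ F := by rw [hFs]; exact convex_convexHull ℝ _
    have : convexHull ℝ T ⊆ F := convexHull_min hTF hFc
    exact hFQ (hFsubQ.antisymm (by rw [← h]; exact this))

end Pool.Agent.Lib.MP_f8b1fe_co
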