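import Mathlib
import Pool.Agent.Lib.MP_f8b1fe_co.Poly

set_option autoImplicit false

namespace Pool.Agent.Lib.MP_f8b1fe_co

open Set Filter Topology

/-- the homogeneous coordinate space for functions `A‖u‖² + C·u + B v² + D v + E` -/
abbrev Wm (m : ℕ) := ℝ × Eu m × ℝ × ℝ × ℝ

/-- homogeneous lift of a point `(u, v)` -/
noncomputable def hom {m : ℕ} (u : Eu m) (v : ℝ) : Wm m := (‖u‖ ^ 2, u, v ^ 2, v, 1)

def eA (m : ℕ) : Wm m := (1, 0, 0, 0, 0)
def eB (m : ℕ) : Wm m := (0, 0, 1, 0, 0)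
def eD (m : ℕ) : Wm m := (0, 0, 0, 1, 0)
def eE (m : ℕ) : Wm m := (0, 0, 0, 0, 1)

lemma decomp_apply {m : ℕ} (g : Wm m →L[ℝ] ℝ) (s : ℝ) (u : Eu m) (r v o : ℝ) :
    g (s, u, r, v, o) = s * g (eA m) + g (0, u, 0, 0, 0) + r * g (eB m) + v * g (eD m) +
      o * g (eE m) := by
  have h : ((s, u, r, v, o) : Wm m) = s • eA m + (0, u, 0, 0, 0) + r • eB m + v • eD m +
      o • eE m := by
    simp [eA, eB, eD, eE]
  rw [h]
  simp only [map_add, map_smul, smul_eq_mul]

lemma finrank_Wm (m : ℕ) : Module.finrank ℝ (Wm m) = m + 4 := by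
  simp [Wm, Module.finrank_prod]
  ring

/-- Data of a diamond configuration. -/
structure Diamond {m : ℕ} (u : Fin (m + 3) → Eu m) (v : Fin (m + 3) → ℝ) : Prop where
  lo : ∀ j, j ≠ 0 → j ≠ Fin.last (m + 2) → v 0 < v j
  hi : ∀ j, j ≠ 0 → j ≠ Fin.last (m + 2) → v j < v (Fin.last (m + 2))
  hull : ∀ τ, (τ = 0 ∨ τ = Fin.last (m + 2)) → ∃ lam : Fin (m + 3) → ℝ, (∀ j, 0 ≤ lam j) ∧
    lam 0 = 0 ∧ lam (Fin.last (m + 2)) = 0 ∧ ∑ j, lam j = 1 ∧ ∑ j, lam j • u j = u τ
  ne : ∀ τ, (τ = 0 ∨ τ = Fin.last (m + 2)) → ∀ j, j ≠ 0 → j ≠ Fin.last (m + 2) → u j ≠ u τ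
  aff : ∀ (c : Eu m →L[ℝ] ℝ) (e : ℝ), (∀ j, j ≠ 0 → j ≠ Fin.last (m + 2) → c (u j) + e = 0) →
    c = 0 ∧ e = 0

variable {m : ℕ} {u : Fin (m + 3) → Eu m} {v : Fin (m + 3) → ℝ}

lemma sum_sq_aux (lam : Fin (m + 3) → ℝ) (h1 : ∑ j, lam j = 1) (x : Eu m)
    (h2 : ∑ j, lam j • u j = x) :
    ∑ j, lam j * ‖u j‖ ^ 2 = ‖x‖ ^ 2 + ∑ j, lam j * ‖u j - x‖ ^ 2 := by
  have h3 : ∀ j, lam j * ‖u j - x‖ ^ 2 =
      lam j * ‖u j‖ ^ 2 - 2 * (inner ℝ (lam j • u j) x) + lam j * ‖x‖ ^ 2 := by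
    intro j
    rw [norm_sub_sq_real, inner_smul_left]
    simp; ring
  simp only [h3, Finset.sum_add_distrib, Finset.sum_sub_distrib]
  rw [← Finset.mul_sum, ← sum_inner, h2, ← Finset.sum_mul, h1, real_inner_self_eq_norm_sq]
  ring

lemma Diamond.key (hD : Diamond u v) (g : Wm m →L[ℝ] ℝ) (hg : ∀ i, g (hom (u i) (v i)) = 0)
    (τ : Fin (m + 3)) (hτ : τ = 0 ∨ τ = Fin.last (m + 2)) :
    ∃ lam : Fin (m + 3) → ℝ, (∀ j, 0 ≤ lam j) ∧
      lam 0 = 0 ∧ lam (Fin.last (m + 2)) = 0 ∧ ∑ j, lam j = 1 ∧ ∃ S : ℝ, 0 < S ∧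
      g (eB m) * v τ ^ 2 + g (eD m) * v τ =
        ∑ j, lam j * (g (eB m) * v j ^ 2 + g (eD m) * v j) + g (eA m) * S := by
  obtain ⟨lam, h0, hl0, hl1, hsum, hcomb⟩ := hD.hull τ hτ
  refine ⟨lam, h0, hl0, hl1, hsum, ∑ j, lam j * ‖u j - u τ‖ ^ 2, ?_, ?_⟩
  · -- positivity
    have hnn : ∀ j ∈ Finset.univ, 0 ≤ lam j * ‖u j - u τ‖ ^ 2 := fun j _ =>
      mul_nonneg (h0 j) (by positivity)
    rw [Finset.sum_pos_iff_of_nonneg hnn]
    obtain ⟨j, -, hj⟩ : ∃ j ∈ Finset.univ, lam j ≠ 0 := by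
      by_contra h
      push Not at h
      rw [Finset.sum_eq_zero h] at hsum
      norm_num at hsum
    refine ⟨j, Finset.mem_univ j, ?_⟩
    have hj0 : j ≠ 0 := fun h => hj (by rw [h, hl0])
    have hj1 : j ≠ Fin.last (m + 2) := fun h => hj (by rw [h, hl1])
    have h3 : 0 < ‖u j - u τ‖ := norm_pos_iff.2 (sub_ne_zero.2 (hD.ne τ hτ j hj0 hj1))
    have h4 : 0 < lam j := lt_of_le_of_ne (h0 j) (Ne.symm hj)
    positivity
  · have hval : ∀ i, g (eB m) * v i ^ 2 + g (eD m) * v i =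
        -(‖u i‖ ^ 2 * g (eA m) + g (0, u i, 0, 0, 0) + g (eE m)) := by
      intro i
      have := hg i
      rw [hom, decomp_apply] at this
      linarith
    have hS := sum_sq_aux lam hsum (u τ) hcomb
    have hlin : ∑ j, lam j * g (0, u j, 0, 0, 0) = g (0, u τ, 0, 0, 0) := by
      rw [← hcomb]
      have : ((0, ∑ j, lam j • u j, 0, 0, 0) : Wm m) =
          ∑ j, lam j • ((0, u j, 0, 0, 0) : Wm m) := by
        simp [Prod.ext_iff, Prod.fst_sum, Prod.snd_sum]
      rw [this, map_sum]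
      refine Finset.sum_congr rfl fun j _ => ?_
      rw [map_smul, smul_eq_mul]
    calc g (eB m) * v τ ^ 2 + g (eD m) * v τ
        = -(‖u τ‖ ^ 2 * g (eA m) + g (0, u τ, 0, 0, 0) + g (eE m)) := hval τ
      _ = ∑ j, lam j * (g (eB m) * v j ^ 2 + g (eD m) * v j) +
          g (eA m) * ∑ j, lam j * ‖u j - u τ‖ ^ 2 := by
        simp only [hval]
        have e1 : ∑ j, lam j * -(‖u j‖ ^ 2 * g (eA m) + g (0, u j, 0, 0, 0) + g (eE m)) =
            -((∑ j, lam j * ‖u j‖ ^ 2) * g (eA m) + ∑ j, lam j * g (0, u j, 0, 0, 0) +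
              (∑ j, lam j) * g (eE m)) := by
          rw [Finset.sum_mul, Finset.sum_mul, ← Finset.sum_add_distrib, ← Finset.sum_add_distrib,
            ← Finset.sum_neg_distrib]
          refine Finset.sum_congr rfl fun j _ => ?_
          ring
        rw [e1, hlin, hsum, hS]
        ring

lemma Diamond.sign_aux (hD : Diamond u v) (g : Wm m →L[ℝ] ℝ)
    (hg : ∀ i, g (hom (u i) (v i)) = 0) (hA : g (eA m) ≤ 0) (hB : 0 ≤ g (eB m)) :
    g (eA m) = 0 ∧ g (eB m) = 0 := by
  set B := g (eB m) with hBdef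
  set D := g (eD m) with hDdef
  set A := g (eA m) with hAdef
  let q : ℝ → ℝ := fun t => B * t ^ 2 + D * t
  -- choose τ with the larger value of q
  obtain ⟨τ, hτ, hmax0, hmax1⟩ : ∃ τ : Fin (m + 3), (τ = 0 ∨ τ = Fin.last (m + 2)) ∧
      q (v 0) ≤ q (v τ) ∧ q (v (Fin.last (m + 2))) ≤ q (v τ) := by
    rcases le_total (q (v 0)) (q (v (Fin.last (m + 2)))) with h | h
    · exact ⟨_, Or.inr rfl, h, le_rfl⟩
    · exact ⟨_, Or.inl rfl, le_rfl, h⟩
  obtain ⟨lam, h0, hl0, hl1, hsum, S, hS, hkey⟩ := hD.key g hg τ hτ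
  -- bound on the middle values
  have hmid : ∀ j, j ≠ 0 → j ≠ Fin.last (m + 2) →
      q (v j) + B * ((v j - v 0) * (v (Fin.last (m + 2)) - v j)) ≤ q (v τ) := by
    intro j hj0 hj1
    have h1 := hD.lo j hj0 hj1
    have h2 := hD.hi j hj0 hj1
    set a := v 0
    set b := v (Fin.last (m + 2))
    set x := v j
    have hab : 0 < b - a := by linarith
    -- q is convex: q x + B (x-a)(b-x) = ((b-x) q a + (x-a) q b)/(b-a)
    have hid : (b - a) * (q x + B * ((x - a) * (b - x))) = (b - x) * q a + (x - a) * q b := by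
      simp only [q]; ring
    have hle : (b - a) * (q x + B * ((x - a) * (b - x))) ≤ (b - a) * q (v τ) := by
      rw [hid]
      have e1 : (b - x) * q a ≤ (b - x) * q (v τ) :=
        mul_le_mul_of_nonneg_left hmax0 (by linarith)
      have e2 : (x - a) * q b ≤ (x - a) * q (v τ) :=
        mul_le_mul_of_nonneg_left hmax1 (by linarith)
      linarith
    exact le_of_mul_le_mul_left hle hab
  have hterm : ∀ j ∈ Finset.univ, lam j * (B * v j ^ 2 + D * v j) ≤
      lam j * q (v τ) - lam j * (B * ((v j - v 0) * (v (Fin.last (m + 2)) - v j))) := by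
    intro j _
    by_cases hj0 : j = 0
    · rw [hj0, hl0]; simp
    by_cases hj1 : j = Fin.last (m + 2)
    · rw [hj1, hl1]; simp
    have h1 := mul_le_mul_of_nonneg_left (hmid j hj0 hj1) (h0 j)
    simp only [q] at h1 ⊢
    linarith
  have hpos : ∀ j ∈ Finset.univ,
      0 ≤ lam j * (B * ((v j - v 0) * (v (Fin.last (m + 2)) - v j))) := by
    intro j _
    by_cases hj0 : j = 0
    · rw [hj0, hl0]; simp
    by_cases hj1 : j = Fin.last (m + 2)
    · rw [hj1, hl1]; simp
    have h1 := hD.lo j hj0 hj1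
    have h2 := hD.hi j hj0 hj1
    apply mul_nonneg (h0 j)
    apply mul_nonneg hB
    apply mul_nonneg <;> linarith
  have hsumle := Finset.sum_le_sum hterm
  rw [Finset.sum_sub_distrib, ← Finset.sum_mul, hsum, one_mul] at hsumle
  have hkey' : q (v τ) = ∑ j, lam j * (B * v j ^ 2 + D * v j) + A * S := hkey
  have hR := Finset.sum_nonneg hpos
  have hAS : A * S ≤ 0 := mul_nonpos_of_nonpos_of_nonneg hA hS.le
  have hR0 : ∑ j, lam j * (B * ((v j - v 0) * (v (Fin.last (m + 2)) - v j))) = 0 := by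
    linarith
  have hA0 : A * S = 0 := by linarith
  refine ⟨?_, ?_⟩
  · rcases mul_eq_zero.1 hA0 with h | h
    · exact h
    · exact absurd h hS.ne'
  · -- some middle weight is positive
    obtain ⟨j, -, hj⟩ : ∃ j ∈ Finset.univ, lam j ≠ 0 := by
      by_contra h
      push Not at h
      rw [Finset.sum_eq_zero h] at hsum
      norm_num at hsum
    have hj0 : j ≠ 0 := fun h => hj (by rw [h, hl0])
    have hj1 : j ≠ Fin.last (m + 2) := fun h => hj (by rw [h, hl1])
    have h1 := (Finset.sum_eq_zero_iff_of_nonneg hpos).1 hR0 j (Finset.mem_univ j)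
    have h2 := hD.lo j hj0 hj1
    have h3 := hD.hi j hj0 hj1
    rcases mul_eq_zero.1 h1 with h | h
    · exact absurd h hj
    rcases mul_eq_zero.1 h with h | h
    · exact h
    · rcases mul_eq_zero.1 h with h | h <;> linarith

lemma Diamond.eq_zero (hD : Diamond u v) (g : Wm m →L[ℝ] ℝ)
    (hg : ∀ i, g (hom (u i) (v i)) = 0) (hA : g (eA m) = 0) (hB : g (eB m) = 0) : g = 0 := by
  obtain ⟨lam, h0, hl0, hl1, hsum, S, hS, hkey⟩ := hD.key g hg 0 (Or.inl rfl)
  rw [hA, hB] at hkey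
  simp only [zero_mul, zero_add, add_zero] at hkey
  have hDv : g (eD m) * (∑ j, lam j * (v j - v 0)) = 0 := by
    have e1 : ∑ j, lam j * (v j - v 0) = ∑ j, lam j * v j - v 0 := by
      simp only [mul_sub, Finset.sum_sub_distrib]
      rw [← Finset.sum_mul, hsum, one_mul]
    have e2 : ∑ j, lam j * (g (eD m) * v j) = g (eD m) * ∑ j, lam j * v j := by
      rw [Finset.mul_sum]
      exact Finset.sum_congr rfl fun j _ => by ring
    rw [e1, mul_sub, ← e2, ← hkey]; ring
  have hpos : 0 < ∑ j, lam j * (v j - v 0) := by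
    have hnn : ∀ j ∈ Finset.univ, 0 ≤ lam j * (v j - v 0) := by
      intro j _
      by_cases hj0 : j = 0
      · rw [hj0, hl0]; simp
      by_cases hj1 : j = Fin.last (m + 2)
      · rw [hj1, hl1]; simp
      have h1 := hD.lo j hj0 hj1
      apply mul_nonneg (h0 j); linarith
    rw [Finset.sum_pos_iff_of_nonneg hnn]
    obtain ⟨j, -, hj⟩ : ∃ j ∈ Finset.univ, lam j ≠ 0 := by
      by_contra h
      push Not at h
      rw [Finset.sum_eq_zero h] at hsum
      norm_num at hsum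
    have hj0 : j ≠ 0 := fun h => hj (by rw [h, hl0])
    have hj1 : j ≠ Fin.last (m + 2) := fun h => hj (by rw [h, hl1])
    have h2 := hD.lo j hj0 hj1
    have h4 : 0 < lam j := lt_of_le_of_ne (h0 j) (Ne.symm hj)
    exact ⟨j, Finset.mem_univ j, mul_pos h4 (by linarith)⟩
  have hD0 : g (eD m) = 0 := by
    rcases mul_eq_zero.1 hDv with h | h
    · exact h
    · exact absurd h hpos.ne'
  -- now the linear part
  let incl : Eu m →L[ℝ] Wm m :=
    (ContinuousLinearMap.inr ℝ ℝ (Eu m × ℝ × ℝ × ℝ)).comp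
      (ContinuousLinearMap.inl ℝ (Eu m) (ℝ × ℝ × ℝ))
  have hincl : ∀ x, g.comp incl x = g (0, x, 0, 0, 0) := fun x => rfl
  have haff := hD.aff (g.comp incl) (g (eE m)) (by
    intro j _ _
    have := hg j
    rw [hom, decomp_apply, hA, hB, hD0] at this
    rw [hincl]
    linarith)
  apply ContinuousLinearMap.ext
  rintro ⟨s, x, r, t, o⟩
  rw [decomp_apply, hA, hB, hD0, haff.2, ← hincl, haff.1]
  simp

/-- A nonzero function vanishing on a diamond has `A B > 0`. -/
lemma Diamond.sign (hD : Diamond u v) (g : Wm m →L[ℝ] ℝ)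
    (hg : ∀ i, g (hom (u i) (v i)) = 0) (hne : g ≠ 0) :
    (0 < g (eA m) ∧ 0 < g (eB m)) ∨ (g (eA m) < 0 ∧ g (eB m) < 0) := by
  have hneg : ∀ i, (-g) (hom (u i) (v i)) = 0 := by
    intro i; simp [hg i]
  rcases lt_trichotomy (g (eA m)) 0 with hA | hA | hA <;>
  rcases lt_trichotomy (g (eB m)) 0 with hB | hB | hB
  · right; exact ⟨hA, hB⟩
  · exact absurd (hD.sign_aux g hg hA.le hB.ge).1 hA.ne
  · exact absurd (hD.sign_aux g hg hA.le hB.le).1 hA.ne
  · have := (hD.sign_aux (-g) hneg (by simp [hA]) (by simp [hB.le])).2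
    simp at this; exact absurd this hB.ne
  · exact absurd (hD.eq_zero g hg hA hB) hne
  · exact absurd (hD.sign_aux g hg hA.le hB.le).2 hB.ne'
  · have := (hD.sign_aux (-g) hneg (by simp [hA.le]) (by simp [hB.le])).2
    simp at this; exact absurd this hB.ne
  · have := (hD.sign_aux (-g) hneg (by simp [hA.le]) (by simp [hB])).1
    simp at this; exact absurd this hA.ne'
  · left; exact ⟨hA, hB⟩

/-- The diamond lemma. -/
theorem Diamond.exists_quadric (hD : Diamond u v) :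
    LinearIndependent ℝ (fun i => hom (u i) (v i)) ∧
    ∃ g : Wm m →L[ℝ] ℝ, (∀ i, g (hom (u i) (v i)) = 0) ∧ 0 < g (eA m) ∧ 0 < g (eB m) := by
  classical
  constructor
  · -- span with eB is everything
    let b : Option (Fin (m + 3)) → Wm m := fun o => o.elim (eB m) (fun i => hom (u i) (v i))
    have hspan : Submodule.span ℝ (range b) = ⊤ := by
      by_contra hne
      obtain ⟨f, hf, hfk⟩ := Submodule.exists_le_ker_of_lt_top _ (lt_top_iff_ne_top.2 hne)
      let g : Wm m →L[ℝ] ℝ := LinearMap.toContinuousLinearMap f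
      have hgf : ∀ x, g x = f x := fun x => rfl
      have hg : ∀ i, g (hom (u i) (v i)) = 0 := fun i => by
        rw [hgf]
        exact hfk (Submodule.subset_span ⟨some i, rfl⟩)
      have hgB : g (eB m) = 0 := by
        rw [hgf]
        exact hfk (Submodule.subset_span ⟨none, rfl⟩)
      have hg0 : g ≠ 0 := by
        intro h
        apply hf
        apply LinearMap.ext
        intro y
        have := hgf y
        rw [h] at this
        simpa using this.symm
      rcases hD.sign g hg hg0 with h | h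
      · linarith [h.2]
      · linarith [h.2]
    have hb : LinearIndependent ℝ b :=
      linearIndependent_of_top_le_span_of_card_eq_finrank hspan.ge (by
        rw [Fintype.card_option, Fintype.card_fin, finrank_Wm])
    exact hb.comp (fun i : Fin (m + 3) => some i) (Option.some_injective _)
  · -- existence
    have hlt : Submodule.span ℝ (range (fun i => hom (u i) (v i))) < ⊤ := by
      rw [lt_top_iff_ne_top]
      intro h
      have h1 := finrank_range_le_card (R := ℝ) (fun i => hom (u i) (v i))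
      rw [Set.finrank, h, finrank_top, finrank_Wm, Fintype.card_fin] at h1
      omega
    obtain ⟨f, hf, hfk⟩ := Submodule.exists_le_ker_of_lt_top _ hlt
    let g : Wm m →L[ℝ] ℝ := LinearMap.toContinuousLinearMap f
    have hgf : ∀ x, g x = f x := fun x => rfl
    have hg : ∀ i, g (hom (u i) (v i)) = 0 := fun i => by
      rw [hgf]
      exact hfk (Submodule.subset_span ⟨i, rfl⟩)
    have hg0 : g ≠ 0 := by
      intro h
      apply hf
      apply LinearMap.ext
      intro y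
      have := hgf y
      rw [h] at this
      simpa using this.symm
    rcases hD.sign g hg hg0 with h | h
    · exact ⟨g, hg, h.1, h.2⟩
    · refine ⟨-g, fun i => by simp [hg i], ?_, ?_⟩
      · simpa using h.1
      · simpa using h.2

end Pool.Agent.Lib.MP_f8b1fe_co
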