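import Mathlib
import Pool.Agent.Lib.MP_f8b1fe_co.Diamond

set_option autoImplicit false

namespace Pool.Agent.Lib.MP_f8b1fe_co

open Set Filter Topology

/-- vertices of a simplex with barycentre `0` -/
noncomputable def Pm (m : ℕ) : Fin (m + 1) → Eu m :=
  Fin.lastCases (-(∑ i, EuclideanSpace.single i (1 : ℝ))) (fun i => EuclideanSpace.single i (1 : ℝ))

lemma Pm_castSucc (m : ℕ) (i : Fin m) : Pm m i.castSucc = EuclideanSpace.single i (1 : ℝ) := by
  simp [Pm]

lemma Pm_last (m : ℕ) : Pm m (Fin.last m) = -(∑ i, EuclideanSpace.single i (1 : ℝ)) := by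
  simp [Pm]

lemma sum_Pm (m : ℕ) : ∑ j, Pm m j = 0 := by
  rw [Fin.sum_univ_castSucc, Pm_last]
  simp only [Pm_castSucc]
  simp

lemma Pm_castSucc_apply (m : ℕ) (i i' : Fin m) : Pm m i.castSucc i' = if i' = i then 1 else 0 := by
  rw [Pm_castSucc]
  simp

lemma Pm_last_apply (m : ℕ) (i : Fin m) : Pm m (Fin.last m) i = -1 := by
  rw [Pm_last]
  simp

lemma Pm_ne_smul (m : ℕ) {j j' : Fin (m + 1)} (hj : j ≠ j') {s s' : ℝ} (hs : 0 < s) (hs' : 0 ≤ s') :
    s • Pm m j ≠ s' • Pm m j' := by
  intro h
  induction j using Fin.lastCases with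
  | last =>
    induction j' using Fin.lastCases with
    | last => exact hj rfl
    | cast i =>
      have := congrArg (fun x : Eu m => x i) h
      simp only [PiLp.smul_apply, Pm_last_apply, Pm_castSucc_apply, smul_eq_mul, if_true] at this
      linarith
  | cast i =>
    have h1 := congrArg (fun x : Eu m => x i) h
    simp only [PiLp.smul_apply, Pm_castSucc_apply, smul_eq_mul, if_true] at h1
    induction j' using Fin.lastCases with
    | last =>
      rw [Pm_last_apply] at h1; linarith
    | cast i' =>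
      rw [Pm_castSucc_apply] at h1
      have : i ≠ i' := fun h => hj (by rw [h])
      rw [if_neg this] at h1
      linarith

lemma Pm_ne_zero (m : ℕ) (hm : 0 < m) (j : Fin (m + 1)) : Pm m j ≠ 0 := by
  intro h
  induction j using Fin.lastCases with
  | last =>
    have h1 := congrArg (fun x : Eu m => x ⟨0, hm⟩) h
    simp only [Pm_last_apply, PiLp.zero_apply] at h1
    linarith
  | cast i =>
    have h1 := congrArg (fun x : Eu m => x i) h
    simp only [Pm_castSucc_apply, PiLp.zero_apply, if_true] at h1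
    linarith

/-- the digit positions: label `0` and the last label are near the centre of the simplex, the
others near its vertices -/
noncomputable def phi (m : ℕ) (t : Fin (m + 3)) (k : ℕ) : Eu m :=
  Fin.cases (motive := fun _ => Eu m) ((1 / (2 * (k : ℝ) + 3)) • Pm m 0)
    (Fin.lastCases (motive := fun _ => Eu m) ((1 / (2 * (k : ℝ) + 4)) • Pm m 0)
      (fun j => ((k : ℝ) + 1) • Pm m j)) t

lemma phi_zero (m k : ℕ) : phi m 0 k = (1 / (2 * (k : ℝ) + 3)) • Pm m 0 := rfl

lemma phi_last (m k : ℕ) : phi m (Fin.last (m + 2)) k = (1 / (2 * (k : ℝ) + 4)) • Pm m 0 := by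
  have : Fin.last (m + 2) = (Fin.last (m + 1)).succ := rfl
  rw [this, phi, Fin.cases_succ, Fin.lastCases_last]

lemma phi_mid (m k : ℕ) (j : Fin (m + 1)) :
    phi m j.castSucc.succ k = ((k : ℝ) + 1) • Pm m j := by
  rw [phi, Fin.cases_succ, Fin.lastCases_castSucc]

lemma mid_cases (m : ℕ) (t : Fin (m + 3)) (h0 : t ≠ 0) (h1 : t ≠ Fin.last (m + 2)) :
    ∃ j : Fin (m + 1), t = j.castSucc.succ := by
  induction t using Fin.cases with
  | zero => exact absurd rfl h0
  | succ t =>
    induction t using Fin.lastCases with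
    | last => exact absurd rfl h1
    | cast j => exact ⟨j, rfl⟩

lemma phi_injective (m : ℕ) (hm : 0 < m) {t t' : Fin (m + 3)} {k k' : ℕ}
    (h : phi m t k = phi m t' k') : t = t' ∧ k = k' := by
  have hP := Pm_ne_zero m hm 0
  have c3 : ∀ k : ℕ, 0 < 1 / (2 * (k : ℝ) + 3) ∧ 1 / (2 * (k : ℝ) + 3) < 1 := by
    intro k
    have : (0 : ℝ) ≤ k := Nat.cast_nonneg k
    refine ⟨by positivity, ?_⟩
    rw [div_lt_one (by positivity)]; linarith
  have c4 : ∀ k : ℕ, 0 < 1 / (2 * (k : ℝ) + 4) ∧ 1 / (2 * (k : ℝ) + 4) < 1 := by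
    intro k
    have : (0 : ℝ) ≤ k := Nat.cast_nonneg k
    refine ⟨by positivity, ?_⟩
    rw [div_lt_one (by positivity)]; linarith
  -- a middle one is never a multiple c • Pm 0 with 0 < c < 1
  have hmid : ∀ (j : Fin (m + 1)) (k : ℕ) (c : ℝ), 0 < c → c < 1 →
      ((k : ℝ) + 1) • Pm m j ≠ c • Pm m 0 := by
    intro j k c hc0 hc1
    have hk : (0 : ℝ) ≤ k := Nat.cast_nonneg k
    by_cases hj : j = 0
    · subst hj
      intro h
      have := smul_left_injective ℝ hP h
      linarith
    · exact Pm_ne_smul m hj (by linarith) hc0.le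
  by_cases ht0 : t = 0
  · subst ht0
    by_cases ht0' : t' = 0
    · subst ht0'
      rw [phi_zero, phi_zero] at h
      have := smul_left_injective ℝ hP h
      have hk : (0 : ℝ) ≤ k := Nat.cast_nonneg k
      have hk' : (0 : ℝ) ≤ k' := Nat.cast_nonneg k'
      rw [div_eq_div_iff (by positivity) (by positivity)] at this
      refine ⟨rfl, ?_⟩
      have : (k : ℝ) = k' := by linarith
      exact_mod_cast this
    by_cases ht1' : t' = Fin.last (m + 2)
    · subst ht1'
      rw [phi_zero, phi_last] at h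
      have := smul_left_injective ℝ hP h
      have hk : (0 : ℝ) ≤ k := Nat.cast_nonneg k
      have hk' : (0 : ℝ) ≤ k' := Nat.cast_nonneg k'
      rw [div_eq_div_iff (by positivity) (by positivity)] at this
      have h2 : (2 * k' + 4 : ℝ) = 2 * k + 3 := by linarith
      have h3 : 2 * k' + 4 = 2 * k + 3 := by exact_mod_cast h2
      omega
    · obtain ⟨j, rfl⟩ := mid_cases m t' ht0' ht1'
      rw [phi_zero, phi_mid] at h
      exact absurd h.symm (hmid j k' _ (c3 k).1 (c3 k).2)
  by_cases ht1 : t = Fin.last (m + 2)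
  · subst ht1
    by_cases ht0' : t' = 0
    · subst ht0'
      rw [phi_zero, phi_last] at h
      have := smul_left_injective ℝ hP h
      have hk : (0 : ℝ) ≤ k := Nat.cast_nonneg k
      have hk' : (0 : ℝ) ≤ k' := Nat.cast_nonneg k'
      rw [div_eq_div_iff (by positivity) (by positivity)] at this
      have h2 : (2 * k + 4 : ℝ) = 2 * k' + 3 := by linarith
      have h3 : 2 * k + 4 = 2 * k' + 3 := by exact_mod_cast h2
      omega
    by_cases ht1' : t' = Fin.last (m + 2)
    · subst ht1'
      rw [phi_last, phi_last] at h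
      have := smul_left_injective ℝ hP h
      have hk : (0 : ℝ) ≤ k := Nat.cast_nonneg k
      have hk' : (0 : ℝ) ≤ k' := Nat.cast_nonneg k'
      rw [div_eq_div_iff (by positivity) (by positivity)] at this
      refine ⟨rfl, ?_⟩
      have : (k : ℝ) = k' := by linarith
      exact_mod_cast this
    · obtain ⟨j, rfl⟩ := mid_cases m t' ht0' ht1'
      rw [phi_last, phi_mid] at h
      exact absurd h.symm (hmid j k' _ (c4 k).1 (c4 k).2)
  obtain ⟨j, rfl⟩ := mid_cases m t ht0 ht1
  by_cases ht0' : t' = 0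
  · subst ht0'
    rw [phi_zero, phi_mid] at h
    exact absurd h (hmid j k _ (c3 k').1 (c3 k').2)
  by_cases ht1' : t' = Fin.last (m + 2)
  · subst ht1'
    rw [phi_last, phi_mid] at h
    exact absurd h (hmid j k _ (c4 k').1 (c4 k').2)
  obtain ⟨j', rfl⟩ := mid_cases m t' ht0' ht1'
  rw [phi_mid, phi_mid] at h
  have hk : (0 : ℝ) ≤ k := Nat.cast_nonneg k
  have hk' : (0 : ℝ) ≤ k' := Nat.cast_nonneg k'
  by_cases hj : j = j'
  · subst hj
    have := smul_left_injective ℝ (Pm_ne_zero m hm j) h
    refine ⟨rfl, ?_⟩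
    have : (k : ℝ) = k' := by linarith
    exact_mod_cast this
  · exact absurd h (Pm_ne_smul m hj (by linarith) (by linarith))

/-- sum over the middle labels -/
lemma sum_mid {M : Type*} [AddCommMonoid M] (m : ℕ) (f : Fin (m + 3) → M) :
    ∑ t, f t = f 0 + (∑ j : Fin (m + 1), f j.castSucc.succ) + f (Fin.last (m + 2)) := by
  rw [Fin.sum_univ_succ, Fin.sum_univ_castSucc, ← add_assoc]
  rfl

theorem phi_diamond (m : ℕ) (hm : 0 < m) (κ : Fin (m + 3) → ℕ) (v : Fin (m + 3) → ℝ)
    (hlo : ∀ j, j ≠ 0 → j ≠ Fin.last (m + 2) → v 0 < v j)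
    (hhi : ∀ j, j ≠ 0 → j ≠ Fin.last (m + 2) → v j < v (Fin.last (m + 2))) :
    Diamond (fun t => phi m t (κ t)) v := by
  have hP := Pm_ne_zero m hm 0
  -- general hull statement
  have hull : ∀ c : ℝ, 0 ≤ c → c ≤ 1 → ∃ lam : Fin (m + 3) → ℝ, (∀ j, 0 ≤ lam j) ∧
      lam 0 = 0 ∧ lam (Fin.last (m + 2)) = 0 ∧ ∑ j, lam j = 1 ∧
      ∑ j, lam j • phi m j (κ j) = c • Pm m 0 := by
    intro c hc0 hc1
    let s : Fin (m + 1) → ℝ := fun j => (κ j.castSucc.succ : ℝ) + 1
    have hs : ∀ j, 1 ≤ s j := fun j => by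
      have : (0 : ℝ) ≤ κ j.castSucc.succ := Nat.cast_nonneg _
      simp only [s]; linarith
    have hs0 : ∀ j, 0 < s j := fun j => lt_of_lt_of_le one_pos (hs j)
    let R : ℝ := ∑ j, 1 / s j
    have hR : 0 < R := Finset.sum_pos (fun j _ => by have := hs0 j; positivity) ⟨0, Finset.mem_univ _⟩
    let T : ℝ := (1 - c / s 0) / R
    have hT : 0 ≤ T := by
      apply div_nonneg _ hR.le
      rw [sub_nonneg, div_le_one (hs0 0)]
      exact hc1.trans (hs 0)
    let μ : Fin (m + 1) → ℝ := fun j => ((if j = 0 then c else 0) + T) / s j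
    have hμ : ∀ j, 0 ≤ μ j := by
      intro j
      apply div_nonneg _ (hs0 j).le
      split_ifs <;> linarith
    have hμsum : ∑ j, μ j = 1 := by
      have e1 : ∀ j, μ j = (if j = 0 then c / s 0 else 0) + T * (1 / s j) := by
        intro j
        simp only [μ]
        by_cases hj : j = 0
        · subst hj; simp; ring
        · simp [hj]; ring
      simp only [e1, Finset.sum_add_distrib]
      rw [Finset.sum_ite_eq' Finset.univ (0 : Fin (m + 1)), if_pos (Finset.mem_univ _),
        ← Finset.mul_sum]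
      change c / s 0 + T * R = 1
      simp only [T]
      rw [div_mul_cancel₀ _ hR.ne']
      ring
    have hμcomb : ∑ j, (μ j * s j) • Pm m j = c • Pm m 0 := by
      have e1 : ∀ j, (μ j * s j) • Pm m j = (if j = 0 then c • Pm m 0 else 0) + T • Pm m j := by
        intro j
        have : μ j * s j = (if j = 0 then c else 0) + T := by
          simp only [μ]
          rw [div_mul_cancel₀ _ (hs0 j).ne']
        rw [this, add_smul]
        by_cases hj : j = 0
        · subst hj; simp
        · simp [hj]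
      simp only [e1, Finset.sum_add_distrib]
      rw [Finset.sum_ite_eq' Finset.univ (0 : Fin (m + 1)), if_pos (Finset.mem_univ _),
        ← Finset.smul_sum, sum_Pm, smul_zero, add_zero]
    let lam : Fin (m + 3) → ℝ := fun t =>
      Fin.cases (motive := fun _ => ℝ) 0 (Fin.lastCases (motive := fun _ => ℝ) 0 μ) t
    have l0 : lam 0 = 0 := rfl
    have l1 : lam (Fin.last (m + 2)) = 0 := by
      have : Fin.last (m + 2) = (Fin.last (m + 1)).succ := rfl
      simp only [lam]
      rw [this, Fin.cases_succ, Fin.lastCases_last]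
    have lm : ∀ j : Fin (m + 1), lam j.castSucc.succ = μ j := by
      intro j
      simp only [lam]
      rw [Fin.cases_succ, Fin.lastCases_castSucc]
    refine ⟨lam, ?_, l0, l1, ?_, ?_⟩
    · intro j
      by_cases h0 : j = 0
      · rw [h0, l0]
      by_cases h1 : j = Fin.last (m + 2)
      · rw [h1, l1]
      obtain ⟨j, rfl⟩ := mid_cases m j h0 h1
      rw [lm]; exact hμ j
    · rw [sum_mid, l0, l1]
      simp only [lm]
      rw [hμsum]; ring
    · rw [sum_mid, l0, l1, zero_smul, zero_smul, zero_add, add_zero, ← hμcomb]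
      refine Finset.sum_congr rfl fun j _ => ?_
      rw [lm, phi_mid, smul_smul]
  refine ⟨hlo, hhi, ?_, ?_, ?_⟩
  · rintro τ (rfl | rfl)
    · rw [phi_zero]
      have hk : (0 : ℝ) ≤ κ 0 := Nat.cast_nonneg _
      apply hull
      · positivity
      · rw [div_le_one (by positivity)]; linarith
    · rw [phi_last]
      have hk : (0 : ℝ) ≤ κ (Fin.last (m + 2)) := Nat.cast_nonneg _
      apply hull
      · positivity
      · rw [div_le_one (by positivity)]; linarith
  · rintro τ hτ j hj0 hj1 h
    have := (phi_injective m hm h).1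
    rcases hτ with rfl | rfl
    · exact hj0 this
    · exact hj1 this
  · intro c e h
    have h1 : ∀ j : Fin (m + 1), c (Pm m j) = -e / ((κ j.castSucc.succ : ℝ) + 1) := by
      intro j
      have h2 := h j.castSucc.succ (Fin.succ_ne_zero _) (by
        intro h3
        have : j.castSucc = Fin.last (m + 1) := Fin.succ_injective _ h3
        exact (Fin.castSucc_lt_last j).ne this)
      rw [phi_mid, map_smul, smul_eq_mul] at h2
      have hk : (0 : ℝ) ≤ κ j.castSucc.succ := Nat.cast_nonneg _
      rw [eq_div_iff (by positivity)]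
      linarith
    have h2 : ∑ j, c (Pm m j) = 0 := by
      rw [← map_sum, sum_Pm, map_zero]
    simp only [h1] at h2
    have h3 : e * ∑ j : Fin (m + 1), (1 / ((κ j.castSucc.succ : ℝ) + 1)) = 0 := by
      rw [Finset.mul_sum, ← neg_eq_zero, ← Finset.sum_neg_distrib, ← h2]
      refine Finset.sum_congr rfl fun j _ => ?_
      ring
    have h4 : 0 < ∑ j : Fin (m + 1), (1 / ((κ j.castSucc.succ : ℝ) + 1)) := by
      apply Finset.sum_pos _ ⟨0, Finset.mem_univ _⟩
      intro j _
      have hk : (0 : ℝ) ≤ κ j.castSucc.succ := Nat.cast_nonneg _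
      positivity
    have he : e = 0 := by
      rcases mul_eq_zero.1 h3 with h | h
      · exact h
      · exact absurd h h4.ne'
    refine ⟨?_, he⟩
    have h5 : ∀ i : Fin m, c (EuclideanSpace.single i 1) = 0 := by
      intro i
      rw [← Pm_castSucc, h1, he]; simp
    apply ContinuousLinearMap.ext
    intro x
    have hx : x = ∑ i, x i • EuclideanSpace.single i (1 : ℝ) := by
      ext i
      simp [Finset.sum_apply, Pi.single_apply]
    rw [hx, map_sum]
    simp [h5]

end Pool.Agent.Lib.MP_f8b1fe_co
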