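import Mathlib
import Pool.Agent.Lib.MP_f8b1fe_co.Phi
import Pool.Agent.Lib.MP_f8b1fe_co.OpenGood

set_option autoImplicit false

namespace Pool.Agent.Lib.MP_f8b1fe_co

open Set Filter Topology

variable {m : ℕ}

/-- an edge cut out by a quadric with `A, B > 0` -/
def GoodEdge {X : Type*} (w : X → Wm m) (σ : Fin (m + 3) → X) : Prop :=
  LinearIndependent ℝ (fun i => w (σ i)) ∧ ∃ g : Wm m →L[ℝ] ℝ, (∀ i, g (w (σ i)) = 0) ∧
    (∀ p, (∀ i, σ i ≠ p) → 0 < g (w p)) ∧ 0 < g (eA m) ∧ 0 < g (eB m)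

lemma GoodEdge.eventually {X : Type*} [Finite X] {w₀ : X → Wm m} {σ : Fin (m + 3) → X}
    (h : GoodEdge w₀ σ) : ∀ᶠ w in 𝓝 w₀, GoodEdge w σ := by
  obtain ⟨hlin, g₀, h0, hpos, hA, hB⟩ := h
  obtain ⟨G, hGc, hG0, hGev⟩ := exists_continuous_hyperplane (W := Wm m)
    (by rw [Fintype.card_fin, finrank_Wm]) σ (eA m) w₀ g₀ h0 hlin hA.ne'
  have h1 : ∀ᶠ w in 𝓝 w₀, LinearIndependent ℝ (fun i => w (σ i)) := by
    have hopen : IsOpen {f : Fin (m + 3) → Wm m | LinearIndependent ℝ f} :=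
      isOpen_setOfPred_linearIndependent
    have hc : Continuous (fun w : X → Wm m => (fun i => w (σ i))) := by fun_prop
    exact hc.continuousAt.eventually (hopen.mem_nhds hlin)
  have h2 : ∀ p, (∀ i, σ i ≠ p) → ∀ᶠ w in 𝓝 w₀, 0 < G w (w p) := by
    intro p hp
    have hc : ContinuousAt (fun w : X → Wm m => G w (w p)) w₀ :=
      hGc.clm_apply (continuous_apply p).continuousAt
    have h3 : 0 < G w₀ (w₀ p) := by rw [hG0]; exact hpos p hp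
    exact hc.eventually (lt_mem_nhds h3)
  have h2' : ∀ᶠ w in 𝓝 w₀, ∀ p, (∀ i, σ i ≠ p) → 0 < G w (w p) := by
    rw [eventually_all]
    intro p
    by_cases hp : ∀ i, σ i ≠ p
    · exact (h2 p hp).mono fun w hw _ => hw
    · exact Eventually.of_forall fun w h => absurd h hp
  have h3 : ∀ᶠ w in 𝓝 w₀, 0 < G w (eA m) := by
    have hc : ContinuousAt (fun w : X → Wm m => G w (eA m)) w₀ :=
      hGc.clm_apply continuousAt_const
    have h3 : 0 < G w₀ (eA m) := by rw [hG0]; exact hA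
    exact hc.eventually (lt_mem_nhds h3)
  have h4 : ∀ᶠ w in 𝓝 w₀, 0 < G w (eB m) := by
    have hc : ContinuousAt (fun w : X → Wm m => G w (eB m)) w₀ :=
      hGc.clm_apply continuousAt_const
    have h3 : 0 < G w₀ (eB m) := by rw [hG0]; exact hB
    exact hc.eventually (lt_mem_nhds h3)
  filter_upwards [h1, h2', h3, h4, hGev] with w a1 a2 a3 a4 a5
  exact ⟨a1, G w, a5, a2, a3, a4⟩

/-- the linear map inducing `(u, v) ↦ (c (u - u₀), v - h)` on homogeneous coordinates -/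
noncomputable def Theta (u₀ : Eu m) (c h : ℝ) : Wm m →ₗ[ℝ] Wm m where
  toFun z := (c ^ 2 * (z.1 - 2 * inner ℝ u₀ z.2.1 + ‖u₀‖ ^ 2 * z.2.2.2.2),
    c • (z.2.1 - z.2.2.2.2 • u₀), z.2.2.1 - 2 * h * z.2.2.2.1 + h ^ 2 * z.2.2.2.2,
    z.2.2.2.1 - h * z.2.2.2.2, z.2.2.2.2)
  map_add' z z' := by
    ext i
    · simp [inner_add_right]; ring
    · simp; ring
    · simp; ring
    · simp; ring
    · simp
  map_smul' a z := by
    ext i
    · simp [inner_smul_right]; ring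
    · simp; ring
    · simp; ring
    · simp; ring
    · simp

lemma Theta_hom (u₀ : Eu m) (c h : ℝ) (u : Eu m) (v : ℝ) :
    Theta u₀ c h (hom u v) = hom (c • (u - u₀)) (v - h) := by
  have h1 : ‖c • (u - u₀)‖ ^ 2 = c ^ 2 * (‖u‖ ^ 2 - 2 * inner ℝ u₀ u + ‖u₀‖ ^ 2 * 1) := by
    rw [norm_smul, mul_pow, norm_sub_sq_real, real_inner_comm]
    simp
  simp only [Theta, hom, LinearMap.coe_mk, AddHom.coe_mk]
  rw [h1]
  simp only [Prod.mk.injEq, one_smul, true_and]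
  refine ⟨by ring, by ring, trivial⟩

lemma Theta_eA (u₀ : Eu m) (c h : ℝ) : Theta u₀ c h (eA m) = c ^ 2 • eA m := by
  simp [Theta, eA]

lemma Theta_eB (u₀ : Eu m) (c h : ℝ) : Theta u₀ c h (eB m) = eB m := by
  simp [Theta, eB]

lemma GoodEdge.of_Theta {X : Type*} {w : X → Wm m} {σ : Fin (m + 3) → X} (u₀ : Eu m) {c : ℝ}
    (hc : c ≠ 0) (h : ℝ) (hG : GoodEdge (fun p => Theta u₀ c h (w p)) σ) : GoodEdge w σ := by
  obtain ⟨hlin, g, h0, hpos, hA, hB⟩ := hG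
  refine ⟨LinearIndependent.of_comp (Theta u₀ c h) hlin,
    g.comp (LinearMap.toContinuousLinearMap (Theta u₀ c h)), h0, hpos, ?_, ?_⟩
  · change 0 < g (Theta u₀ c h (eA m))
    rw [Theta_eA, map_smul, smul_eq_mul]
    have : 0 < c ^ 2 := by positivity
    positivity
  · change 0 < g (Theta u₀ c h (eB m))
    rw [Theta_eB]; exact hB

lemma quad_eventually_pos {a b c : ℝ} (ha : 0 < a) : ∀ᶠ T : ℝ in atTop, 0 < a * T ^ 2 + b * T + c := by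
  filter_upwards [eventually_ge_atTop 1, eventually_gt_atTop ((|b| + |c|) / a)] with T hT1 hT2
  rw [div_lt_iff₀ ha] at hT2
  have hb := neg_abs_le b
  have hc := neg_abs_le c
  have h0 : 0 ≤ |c| := abs_nonneg c
  nlinarith [mul_le_mul_of_nonneg_right hT1 h0, mul_le_mul_of_nonneg_right hb (by linarith : 0 ≤ T)]

lemma hom_apply (g : Wm m →L[ℝ] ℝ) (u : Eu m) (v : ℝ) :
    g (hom u v) = ‖u‖ ^ 2 * g (eA m) + g (0, u, 0, 0, 0) + v ^ 2 * g (eB m) + v * g (eD m) +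
      1 * g (eE m) := decomp_apply g _ _ _ _ _

lemma far_v (g : Wm m →L[ℝ] ℝ) (hB : 0 < g (eB m)) (u : Eu m) (y₀ k : ℝ) (hk : k ≠ 0) :
    ∀ᶠ H : ℝ in atTop, 0 < g (hom u (y₀ + H * k)) := by
  have h := quad_eventually_pos (a := k ^ 2 * g (eB m)) (b := 2 * y₀ * k * g (eB m) + k * g (eD m))
    (c := ‖u‖ ^ 2 * g (eA m) + g (0, u, 0, 0, 0) + y₀ ^ 2 * g (eB m) + y₀ * g (eD m) + g (eE m))
    (by positivity)
  filter_upwards [h] with H hH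
  rw [hom_apply]
  nlinarith [hH]

lemma far_u (g : Wm m →L[ℝ] ℝ) (hA : 0 < g (eA m)) (u₁ u₂ : Eu m) (hu : u₁ ≠ 0) (v : ℝ) :
    ∀ᶠ δ : ℝ in 𝓝[>] 0, 0 < g (hom (δ⁻¹ • u₁ + u₂) v) := by
  have hn : 0 < ‖u₁‖ := norm_pos_iff.2 hu
  have h := quad_eventually_pos (a := ‖u₁‖ ^ 2 * g (eA m))
    (b := 2 * inner ℝ u₁ u₂ * g (eA m) + g (0, u₁, 0, 0, 0))
    (c := ‖u₂‖ ^ 2 * g (eA m) + g (0, u₂, 0, 0, 0) + v ^ 2 * g (eB m) + v * g (eD m) + g (eE m))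
    (by positivity)
  have h2 := tendsto_inv_nhdsGT_zero.eventually h
  filter_upwards [h2] with δ hδ
  rw [hom_apply]
  have e1 : ‖δ⁻¹ • u₁ + u₂‖ ^ 2 = ‖u₁‖ ^ 2 * δ⁻¹ ^ 2 + 2 * inner ℝ u₁ u₂ * δ⁻¹ + ‖u₂‖ ^ 2 := by
    rw [norm_add_sq_real, norm_smul, mul_pow, inner_smul_left]
    simp; ring
  have e2 : g (0, δ⁻¹ • u₁ + u₂, 0, 0, 0) = δ⁻¹ * g (0, u₁, 0, 0, 0) + g (0, u₂, 0, 0, 0) := by
    have : ((0, δ⁻¹ • u₁ + u₂, 0, 0, 0) : Wm m) =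
      δ⁻¹ • ((0, u₁, 0, 0, 0) : Wm m) + (0, u₂, 0, 0, 0) := by simp
    rw [this, map_add, map_smul, smul_eq_mul]
  rw [e1, e2]
  nlinarith [hδ]

end Pool.Agent.Lib.MP_f8b1fe_co
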