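import Mathlib
import Pool.Agent.Lib.MP_f8b1fe_co.Step

set_option autoImplicit false

namespace Pool.Agent.Lib.MP_f8b1fe_co

open Set Filter Topology

variable {m : ℕ} {B : Type} {Kp K : ℕ}

/-- points over bins -/
abbrev Pt (m : ℕ) (B : Type) := B × Fin (m + 3)

/-- the copy `b` of the point `p` in the next stage -/
def lift (e : Pt m B → (Fin Kp × Fin (m + 3) ≃ Fin K)) (b : Fin K) (p : Pt m B) :
    Pt m (Pt m B × Fin Kp) :=
  ((p, ((e p).symm b).1), ((e p).symm b).2)

lemma lift_surj (e : Pt m B → (Fin Kp × Fin (m + 3) ≃ Fin K)) (p' : Pt m (Pt m B × Fin Kp)) :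
    p' = lift e (e p'.1.1 (p'.1.2, p'.2)) p'.1.1 := by
  obtain ⟨⟨p, κ⟩, t⟩ := p'
  simp [lift]

/-- new horizontal coordinate -/
noncomputable def newx (x : B → Eu m) (δ : ℝ) (β : Pt m B × Fin Kp) : Eu m :=
  x β.1.1 + δ • phi m β.1.2 β.2

/-- new vertical coordinate -/
noncomputable def newy (y : Pt m B → ℝ) (H : ℝ) (e : Pt m B → (Fin Kp × Fin (m + 3) ≃ Fin K))
    (p' : Pt m (Pt m B × Fin Kp)) : ℝ :=
  y p'.1.1 + H * ((e p'.1.1 (p'.1.2, p'.2) : Fin K) : ℝ)

lemma newy_lift (y : Pt m B → ℝ) (H : ℝ) (e : Pt m B → (Fin Kp × Fin (m + 3) ≃ Fin K))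
    (b : Fin K) (p : Pt m B) : newy y H e (lift e b p) = y p + H * (b : ℝ) := by
  simp [newy, lift]

lemma newx_lift (x : B → Eu m) (δ : ℝ) (e : Pt m B → (Fin Kp × Fin (m + 3) ≃ Fin K))
    (b : Fin K) (p : Pt m B) :
    newx x δ (lift e b p).1 = x p.1 + δ • phi m p.2 ((e p).symm b).1 := rfl

/-- the lifted configuration -/
noncomputable def neww (x : B → Eu m) (y : Pt m B → ℝ)
    (e : Pt m B → (Fin Kp × Fin (m + 3) ≃ Fin K)) (H δ : ℝ) (p' : Pt m (Pt m B × Fin Kp)) : Wm m :=
  hom (newx x δ p'.1) (newy y H e p')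

lemma continuous_neww (x : B → Eu m) (y : Pt m B → ℝ)
    (e : Pt m B → (Fin Kp × Fin (m + 3) ≃ Fin K)) (H : ℝ) :
    Continuous (fun δ : ℝ => neww x y e H δ) := by
  apply continuous_pi
  intro p'
  unfold neww hom newx
  fun_prop

/-- old edges survive -/
lemma old_edge [Finite B] (x : B → Eu m) (y : Pt m B → ℝ)
    (e : Pt m B → (Fin Kp × Fin (m + 3) ≃ Fin K)) (σ : Fin (m + 3) → Pt m B)
    (hσ : GoodEdge (fun p => hom (x p.1) (y p)) σ) (b : Fin K) :
    ∀ᶠ H in atTop, ∀ᶠ δ in 𝓝[>] (0 : ℝ), GoodEdge (neww x y e H δ) (fun i => lift e b (σ i)) := by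
  obtain ⟨hlin, g, h0, hpos, hA, hB⟩ := hσ
  have hev : ∀ᶠ H : ℝ in atTop, ∀ (p : Pt m B) (b' : Fin K), b' ≠ b →
      0 < g (hom (x p.1) (y p + H * ((b' : ℝ) - b))) := by
    rw [eventually_all]
    intro p
    rw [eventually_all]
    intro b'
    by_cases hb : b' = b
    · exact Eventually.of_forall fun H h => absurd hb h
    · have hk : ((b' : ℝ) - b) ≠ 0 := by
        rw [sub_ne_zero]
        intro h
        apply hb
        have : (b' : ℕ) = (b : ℕ) := by exact_mod_cast h
        exact Fin.ext this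
      exact (far_v g hB (x p.1) (y p) _ hk).mono fun H hH _ => hH
  filter_upwards [hev] with H hH
  have hbase : GoodEdge (neww x y e H 0) (fun i => lift e b (σ i)) := by
    apply GoodEdge.of_Theta (0 : Eu m) (one_ne_zero : (1 : ℝ) ≠ 0) (H * b)
    have hval : ∀ (p : Pt m B) (b' : Fin K),
        Theta (0 : Eu m) 1 (H * b) (neww x y e H 0 (lift e b' p)) =
          hom (x p.1) (y p + H * ((b' : ℝ) - b)) := by
      intro p b'
      rw [neww, Theta_hom, newy_lift, newx_lift]
      congr 1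
      · simp
      · ring
    have hvalσ : ∀ i, Theta (0 : Eu m) 1 (H * b) (neww x y e H 0 (lift e b (σ i))) =
          hom (x (σ i).1) (y (σ i)) := by
      intro i
      rw [hval]
      congr 1
      ring
    refine ⟨?_, g, ?_, ?_, hA, hB⟩
    · simp only [hvalσ]
      exact hlin
    · intro i
      simp only [hvalσ]
      exact h0 i
    · intro p' hp'
      set b' := e p'.1.1 (p'.1.2, p'.2) with hb'
      set p := p'.1.1 with hp
      have hlift : p' = lift e b' p := lift_surj e p'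
      rw [hlift] at hp' ⊢
      simp only [hval]
      by_cases hbb : b' = b
      · have hpσ : ∀ i, σ i ≠ p := by
          intro i hi
          apply hp' i
          rw [hbb, ← hi]
        have := hpos p hpσ
        rw [hbb]
        simpa using this
      · exact hH p b' hbb
  have hcont := (continuous_neww x y e H).continuousAt (x := 0)
  have := hcont.eventually hbase.eventually
  exact this.filter_mono nhdsWithin_le_nhds

/-- the top bins become edges -/
lemma top_edge (hm : 0 < m) [Finite B] (x : B → Eu m) (hx : Function.Injective x) (y : Pt m B → ℝ)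
    (hy : ∀ β, StrictMono (fun t => y (β, t)))
    (e : Pt m B → (Fin Kp × Fin (m + 3) ≃ Fin K)) (β : B) (b : Fin K) :
    ∀ᶠ H in atTop, ∀ᶠ δ in 𝓝[>] (0 : ℝ), GoodEdge (neww x y e H δ) (fun t => lift e b (β, t)) := by
  have hD : Diamond (fun t => phi m t (((e (β, t)).symm b).1 : ℕ)) (fun t => y (β, t)) := by
    apply phi_diamond m hm
    · intro j hj0 hj1
      exact hy β (Fin.pos_iff_ne_zero.2 hj0)
    · intro j hj0 hj1
      exact hy β (lt_of_le_of_ne (Fin.le_last j) hj1)
  obtain ⟨hlin, g, h0, hA, hB⟩ := hD.exists_quadric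
  -- the transformed positions
  have hval : ∀ (H δ : ℝ), δ ≠ 0 → ∀ (p : Pt m B) (b' : Fin K),
      Theta (x β) δ⁻¹ (H * b) (neww x y e H δ (lift e b' p)) =
        hom (δ⁻¹ • (x p.1 - x β) + phi m p.2 (((e p).symm b').1 : ℕ))
          (y p + H * ((b' : ℝ) - b)) := by
    intro H δ hδ p b'
    rw [neww, Theta_hom, newy_lift, newx_lift]
    congr 1
    · rw [show x p.1 + δ • phi m p.2 (((e p).symm b').1 : ℕ) - x β =
        (x p.1 - x β) + δ • phi m p.2 (((e p).symm b').1 : ℕ) by abel, smul_add, smul_smul,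
        inv_mul_cancel₀ hδ, one_smul]
    · ring
  have hev1 : ∀ᶠ H : ℝ in atTop, ∀ (t : Fin (m + 3)) (b' : Fin K), b' ≠ b →
      0 < g (hom (phi m t (((e (β, t)).symm b').1 : ℕ)) (y (β, t) + H * ((b' : ℝ) - b))) := by
    rw [eventually_all]
    intro t
    rw [eventually_all]
    intro b'
    by_cases hb : b' = b
    · exact Eventually.of_forall fun H h => absurd hb h
    · have hk : ((b' : ℝ) - b) ≠ 0 := by
        rw [sub_ne_zero]
        intro h
        apply hb
        have : (b' : ℕ) = (b : ℕ) := by exact_mod_cast h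
        exact Fin.ext this
      exact (far_v g hB _ (y (β, t)) _ hk).mono fun H hH _ => hH
  filter_upwards [hev1] with H hH
  have hev2 : ∀ᶠ δ : ℝ in 𝓝[>] 0, ∀ (p : Pt m B) (b' : Fin K), p.1 ≠ β →
      0 < g (hom (δ⁻¹ • (x p.1 - x β) + phi m p.2 (((e p).symm b').1 : ℕ))
          (y p + H * ((b' : ℝ) - b))) := by
    rw [eventually_all]
    intro p
    rw [eventually_all]
    intro b'
    by_cases hb : p.1 = β
    · exact Eventually.of_forall fun H h => absurd hb h
    · have hne : x p.1 - x β ≠ 0 := sub_ne_zero.2 (fun h => hb (hx h))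
      exact (far_u g hA _ _ hne _).mono fun H hH _ => hH
  filter_upwards [hev2, self_mem_nhdsWithin] with δ hδ hδ0
  have hδ0 : δ ≠ 0 := ne_of_gt hδ0
  apply GoodEdge.of_Theta (x β) (inv_ne_zero hδ0) (H * b)
  have hvalσ : ∀ t, Theta (x β) δ⁻¹ (H * b) (neww x y e H δ (lift e b (β, t))) =
      hom (phi m t (((e (β, t)).symm b).1 : ℕ)) (y (β, t)) := by
    intro t
    rw [hval H δ hδ0]
    congr 1
    · simp
    · ring
  refine ⟨?_, g, ?_, ?_, hA, hB⟩
  · simp only [hvalσ]; exact hlin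
  · intro t; simp only [hvalσ]; exact h0 t
  · intro p' hp'
    set b' := e p'.1.1 (p'.1.2, p'.2) with hb'
    set p := p'.1.1 with hp
    have hlift : p' = lift e b' p := lift_surj e p'
    rw [hlift] at hp' ⊢
    simp only [hval H δ hδ0]
    by_cases hβ : p.1 = β
    · have hpp : p = (β, p.2) := by rw [← hβ]
      by_cases hbb : b' = b
      · exfalso
        apply hp' p.2
        rw [hbb, hpp]
      · have := hH p.2 b' hbb
        rw [hβ, sub_self, smul_zero, zero_add, hpp]
        exact this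
    · exact hδ p b' hβ

/-- The geometric step. -/
theorem step (hm : 0 < m) [Finite B] (x : B → Eu m) (hx : Function.Injective x) (y : Pt m B → ℝ)
    (hy : ∀ β, StrictMono (fun t => y (β, t)))
    (E : Set (Fin (m + 3) → Pt m B)) (hE : ∀ σ ∈ E, GoodEdge (fun p => hom (x p.1) (y p)) σ)
    (e : Pt m B → (Fin Kp × Fin (m + 3) ≃ Fin K)) (he : ∀ p κ, StrictMono (fun t => e p (κ, t))) :
    ∃ (x' : Pt m B × Fin Kp → Eu m) (y' : Pt m (Pt m B × Fin Kp) → ℝ), Function.Injective x' ∧
      (∀ β, StrictMono (fun t => y' (β, t))) ∧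
      (∀ b, ∀ σ ∈ E, GoodEdge (fun p => hom (x' p.1) (y' p)) (fun i => lift e b (σ i))) ∧
      (∀ b β, GoodEdge (fun p => hom (x' p.1) (y' p)) (fun t => lift e b (β, t))) := by
  have h1 : ∀ᶠ H in atTop, ∀ᶠ δ in 𝓝[>] (0 : ℝ), ∀ b, ∀ σ, σ ∈ E →
      GoodEdge (neww x y e H δ) (fun i => lift e b (σ i)) := by
    have h : ∀ᶠ H in atTop, ∀ b, ∀ σ, ∀ᶠ δ in 𝓝[>] (0 : ℝ), σ ∈ E →
        GoodEdge (neww x y e H δ) (fun i => lift e b (σ i)) := by
      rw [eventually_all]; intro b
      rw [eventually_all]; intro σ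
      by_cases hσ : σ ∈ E
      · exact (old_edge x y e σ (hE σ hσ) b).mono fun H hH => hH.mono fun δ hδ _ => hδ
      · exact Eventually.of_forall fun H => Eventually.of_forall fun δ h => absurd h hσ
    filter_upwards [h] with H hH
    rw [eventually_all]; intro b
    rw [eventually_all]; intro σ
    exact hH b σ
  have h2 : ∀ᶠ H in atTop, ∀ᶠ δ in 𝓝[>] (0 : ℝ), ∀ b, ∀ β,
      GoodEdge (neww x y e H δ) (fun t => lift e b (β, t)) := by
    have h : ∀ᶠ H in atTop, ∀ b, ∀ β, ∀ᶠ δ in 𝓝[>] (0 : ℝ),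
        GoodEdge (neww x y e H δ) (fun t => lift e b (β, t)) := by
      rw [eventually_all]; intro b
      rw [eventually_all]; intro β
      exact top_edge hm x hx y hy e β b
    filter_upwards [h] with H hH
    rw [eventually_all]; intro b
    rw [eventually_all]; intro β
    exact hH b β
  have h3 : ∀ᶠ δ in 𝓝[>] (0 : ℝ), Function.Injective (newx (Kp := Kp) x δ) := by
    have h : ∀ᶠ δ in 𝓝[>] (0 : ℝ), ∀ β₁ β₂ : Pt m B × Fin Kp, β₁ ≠ β₂ →
        newx x δ β₁ ≠ newx x δ β₂ := by
      rw [eventually_all]; intro β₁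
      rw [eventually_all]; intro β₂
      by_cases hβ : β₁ = β₂
      · exact Eventually.of_forall fun δ h => absurd hβ h
      by_cases hb : β₁.1.1 = β₂.1.1
      · filter_upwards [self_mem_nhdsWithin] with δ hδ _ heq
        have hδ : (0 : ℝ) < δ := hδ
        unfold newx at heq
        rw [hb, add_right_inj] at heq
        have h4 := smul_right_injective (Eu m) hδ.ne' heq
        have h5 := phi_injective m hm h4
        apply hβ
        exact Prod.ext (Prod.ext hb h5.1) (Fin.ext h5.2)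
      · have hne : x β₁.1.1 ≠ x β₂.1.1 := fun h => hb (hx h)
        have hc : Continuous fun δ : ℝ => newx x δ β₁ - newx x δ β₂ := by
          unfold newx; fun_prop
        have h0 : newx x (0 : ℝ) β₁ - newx x (0 : ℝ) β₂ ≠ 0 := by
          unfold newx; simpa [sub_eq_zero] using hne
        have := hc.continuousAt.eventually (isOpen_ne.mem_nhds h0)
        exact (this.filter_mono nhdsWithin_le_nhds).mono fun δ hδ _ h => hδ (by rw [h, sub_self])
    exact h.mono fun δ hδ β₁ β₂ h => by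
      by_contra hne
      exact hδ β₁ β₂ hne h
  obtain ⟨H, ⟨hH1, hH2⟩, hH0⟩ := ((h1.and h2).and (eventually_gt_atTop (0 : ℝ))).exists
  obtain ⟨δ, ⟨hδ1, hδ2⟩, hδ3⟩ := ((hH1.and hH2).and h3).exists
  refine ⟨newx x δ, newy y H e, hδ3, ?_, fun b σ hσ => hδ1 b σ hσ, hδ2⟩
  rintro ⟨p, κ⟩ t t' htt
  simp only [newy]
  have h4 := he p κ htt
  have h5 : ((e p (κ, t) : Fin K) : ℝ) < ((e p (κ, t') : Fin K) : ℝ) := by
    exact_mod_cast h4
  have := mul_lt_mul_of_pos_left h5 hH0
  linarith

end Pool.Agent.Lib.MP_f8b1fe_co
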