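import Mathlib
import Pool.Agent.Lib.MP_f8b1fe_co.Step2
import Pool.Agent.Lib.MP_f8b1fe_co.Count
import Pool.Agent.Lib.MP_f8b1fe_co.Choice

set_option autoImplicit false

namespace Pool.Agent.Lib.MP_f8b1fe_co

open Set Filter Topology

variable {m : ℕ} {B : Type} {Kp K : ℕ}

/-- points of the next stage as pairs (point, copy) -/
def liftEquiv (e : Pt m B → (Fin Kp × Fin (m + 3) ≃ Fin K)) :
    Pt m B × Fin K ≃ Pt m (Pt m B × Fin Kp) where
  toFun q := lift e q.2 q.1
  invFun p' := (p'.1.1, e p'.1.1 (p'.1.2, p'.2))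
  left_inv q := by simp [lift]
  right_inv p' := (lift_surj e p').symm

open Classical in
/-- a set containing no edge of `E` and no top bin -/
noncomputable def indep [Fintype B] (E : Set (Fin (m + 3) → Pt m B)) : Finset (Finset (Pt m B)) :=
  Finset.univ.filter (fun W => (∀ σ ∈ E, ¬ ∀ i, σ i ∈ W) ∧ ∀ β, ¬ ∀ t, (β, t) ∈ W)

/-- the next set of edges -/
def nextE (e : Pt m B → (Fin Kp × Fin (m + 3) ≃ Fin K)) (E : Set (Fin (m + 3) → Pt m B)) :
    Set (Fin (m + 3) → Pt m (Pt m B × Fin Kp)) :=
  {σ' | (∃ b, ∃ σ ∈ E, σ' = fun i => lift e b (σ i)) ∨ ∃ b β, σ' = fun t => lift e b (β, t)}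

open Classical in
/-- slices -/
noncomputable def slice [Fintype B] (e : Pt m B → (Fin Kp × Fin (m + 3) ≃ Fin K))
    (W' : Finset (Pt m (Pt m B × Fin Kp))) (b : Fin K) : Finset (Pt m B) :=
  Finset.univ.filter (fun p => lift e b p ∈ W')

lemma mem_slice [Fintype B] (e : Pt m B → (Fin Kp × Fin (m + 3) ≃ Fin K))
    (W' : Finset (Pt m (Pt m B × Fin Kp))) (b : Fin K) (p : Pt m B) :
    p ∈ slice e W' b ↔ lift e b p ∈ W' := by
  simp [slice]

lemma card_slices [Fintype B] (e : Pt m B → (Fin Kp × Fin (m + 3) ≃ Fin K))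
    (W' : Finset (Pt m (Pt m B × Fin Kp))) : W'.card = ∑ b, (slice e W' b).card := by
  classical
  have h1 : W'.card = ∑ p' : Pt m (Pt m B × Fin Kp), if p' ∈ W' then 1 else 0 := by simp
  rw [h1, ← (liftEquiv e).sum_comp, Fintype.sum_prod_type_right]
  refine Finset.sum_congr rfl fun b _ => ?_
  rw [slice, Finset.card_filter]
  rfl

lemma slice_injective [Fintype B] (e : Pt m B → (Fin Kp × Fin (m + 3) ≃ Fin K)) :
    Function.Injective (slice e) := by
  intro W₁ W₂ h
  ext p'
  rw [lift_surj e p', ← mem_slice, ← mem_slice, h]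

/-- The main combinatorial + geometric induction. -/
theorem stages (hm : 0 < m) (Kp K : ℕ) (hK : K = Kp * (m + 3)) (hKp : 0 < Kp) (R : ℝ) (hR : 1 ≤ R)
    (hRK : ∀ (T : ℕ), T = Nat.card {e : Fin Kp × Fin (m + 3) ≃ Fin K //
      ∀ κ, StrictMono (fun t => e (κ, t))} → ((T : ℝ) - 1) * R ^ K ≤ T) (N : ℕ) :
    ∃ (B : Type) (_ : Fintype B) (x : B → Eu m) (y : Pt m B → ℝ)
      (E : Set (Fin (m + 3) → Pt m B)), Function.Injective x ∧
      (∀ β, StrictMono (fun t => y (β, t))) ∧
      (∀ σ ∈ E, GoodEdge (fun p => hom (x p.1) (y p)) σ) ∧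
      Fintype.card (Pt m B) = (m + 3) * K ^ N ∧
      ∃ c : ℕ, K * c = N * (m + 2) * Fintype.card (Pt m B) ∧
        ∑ W ∈ indep E, R ^ (N * W.card) ≤ R ^ c * 2 ^ Fintype.card (Pt m B) := by
  classical
  induction N with
  | zero =>
    refine ⟨Unit, inferInstance, fun _ => 0, fun p => ((p.2 : ℕ) : ℝ), ∅, ?_, ?_, ?_, ?_, 0, ?_, ?_⟩
    · intro a b _; rfl
    · intro β t t' htt
      simp only
      exact_mod_cast htt
    · intro σ hσ; exact absurd hσ (Set.notMem_empty σ)
    · simp [Pt]
    · simp
    · simp only [zero_mul, pow_zero, Finset.sum_const, nsmul_eq_mul, mul_one, one_mul]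
      have : (indep (m := m) (B := Unit) ∅).card ≤ 2 ^ Fintype.card (Pt m Unit) := by
        have h1 := Finset.card_le_univ (indep (m := m) (B := Unit) ∅)
        rwa [Fintype.card_finset] at h1
      exact_mod_cast this
  | succ N ih =>
    obtain ⟨B, fB, x, y, E, hx, hy, hE, hcard, c, hc, hsum⟩ := ih
    -- the choices
    let C := {e : Fin Kp × Fin (m + 3) ≃ Fin K // ∀ κ, StrictMono (fun t => e (κ, t))}
    have hCfin : Finite C := Subtype.finite
    let fC : Fintype C := Fintype.ofFinite C
    have hCne : Nonempty C := by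
      obtain ⟨e, he, -⟩ := exists_choice (d := m + 3) hK hKp (Finset.univ : Finset (Fin K)) (by
        rw [Finset.card_univ, Fintype.card_fin, hK]
        exact Nat.le_mul_of_pos_left _ hKp)
      exact ⟨⟨e, he⟩⟩
    let hit : C → Finset (Fin K) → Prop := fun c A => ∃ κ, ∀ t, c.1 (κ, t) ∈ A
    have hhit : ∀ A : Finset (Fin K), (m + 2) + 1 ≤ A.card → ∃ c, hit c A := by
      intro A hA
      obtain ⟨e, he, κ, hκ⟩ := exists_choice (d := m + 3) hK hKp A hA
      exact ⟨⟨e, he⟩, κ, hκ⟩
    have hTR := hRK (Fintype.card C) (by rw [Nat.card_eq_fintype_card])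
    obtain ⟨f, hf⟩ := averaging hit hhit R hR hTR (indep E) N
    let e : Pt m B → (Fin Kp × Fin (m + 3) ≃ Fin K) := fun p => (f p).1
    have he : ∀ p κ, StrictMono (fun t => e p (κ, t)) := fun p κ => (f p).2 κ
    obtain ⟨x', y', hx', hy', hE1, hE2⟩ := step hm x hx y hy E hE e he
    have hcard' : Fintype.card (Pt m (Pt m B × Fin Kp)) = Fintype.card (Pt m B) * K := by
      rw [← Fintype.card_congr (liftEquiv e), Fintype.card_prod, Fintype.card_fin]
    refine ⟨Pt m B × Fin Kp, inferInstance, x', y', nextE e E, hx', hy', ?_, ?_, ?_⟩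
    · rintro σ' (⟨b, σ, hσ, rfl⟩ | ⟨b, β, rfl⟩)
      · exact hE1 b σ hσ
      · exact hE2 b β
    · rw [hcard', hcard]; ring
    · refine ⟨(m + 2) * Fintype.card (Pt m B) + K * c, ?_, ?_⟩
      · rw [hcard', mul_add, hc]; ring
      · -- compare the sums
        have hmap : ∀ W' ∈ indep (nextE e E), slice e W' ∈
            (Fintype.piFinset (fun _ : Fin K => indep E)).filter
              (fun W => ∀ p, ¬ hit (f p) (Finset.univ.filter (fun b => p ∈ W b))) := by
          intro W' hW'
          simp only [indep, Finset.mem_filter, Finset.mem_univ, true_and] at hW'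
          obtain ⟨h1, h2⟩ := hW'
          rw [Finset.mem_filter, Fintype.mem_piFinset]
          refine ⟨fun b => ?_, fun p => ?_⟩
          · simp only [indep, Finset.mem_filter, Finset.mem_univ, true_and]
            refine ⟨fun σ hσ hall => ?_, fun β hall => ?_⟩
            · refine h1 _ (Or.inl ⟨b, σ, hσ, rfl⟩) fun i => ?_
              exact (mem_slice e W' b _).1 (hall i)
            · refine h1 _ (Or.inr ⟨b, β, rfl⟩) fun t => ?_
              exact (mem_slice e W' b _).1 (hall t)
          · rintro ⟨κ, hκ⟩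
            refine h2 (p, κ) fun t => ?_
            have h3 := hκ t
            rw [Finset.mem_filter, mem_slice] at h3
            have h4 : lift e ((f p).1 (κ, t)) p = ((p, κ), t) := by
              simp [lift, e]
            rw [← h4]
            exact h3.2
        have hle : ∑ W' ∈ indep (nextE e E), R ^ ((N + 1) * W'.card) ≤
            ∑ W ∈ (Fintype.piFinset (fun _ : Fin K => indep E)).filter
              (fun W => ∀ p, ¬ hit (f p) (Finset.univ.filter (fun b => p ∈ W b))),
              R ^ ((N + 1) * ∑ b, (W b).card) := by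
          have h1 : ∑ W' ∈ indep (nextE e E), R ^ ((N + 1) * W'.card) =
              ∑ W ∈ (indep (nextE e E)).image (slice e), R ^ ((N + 1) * ∑ b, (W b).card) := by
            rw [Finset.sum_image (fun a _ b _ h => slice_injective e h)]
            refine Finset.sum_congr rfl fun W' _ => ?_
            rw [card_slices e W']
          rw [h1]
          apply Finset.sum_le_sum_of_subset_of_nonneg
          · intro W hW
            obtain ⟨W', hW', rfl⟩ := Finset.mem_image.1 hW
            exact hmap W' hW'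
          · intro W _ _
            positivity
        refine hle.trans (hf.trans ?_)
        have hR0 : 0 < R := by linarith
        calc R ^ ((m + 2) * Fintype.card (Pt m B)) * (∑ W ∈ indep E, R ^ (N * W.card)) ^ K
            ≤ R ^ ((m + 2) * Fintype.card (Pt m B)) *
              (R ^ c * 2 ^ Fintype.card (Pt m B)) ^ K := by
              apply mul_le_mul_of_nonneg_left _ (by positivity)
              apply pow_le_pow_left₀ _ hsum
              exact Finset.sum_nonneg fun W _ => by positivity
          _ = R ^ ((m + 2) * Fintype.card (Pt m B) + K * c) *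
              2 ^ Fintype.card (Pt m (Pt m B × Fin Kp)) := by
              rw [hcard', mul_pow, ← pow_mul, ← pow_mul, pow_add, mul_comm K c]
              ring

/-- The core statement: a finite configuration all of whose dense subsets contain a good edge. -/
theorem core (hm : 0 < m) (ε : ℝ) (hε : 0 < ε) (n₀ : ℕ) :
    ∃ (X : Type) (_ : Fintype X) (x : X → Eu m) (y : X → ℝ),
      n₀ ≤ Fintype.card X ∧ Function.Injective (fun p => (x p, y p)) ∧
      ∀ W : Finset X, ε * Fintype.card X ≤ W.card →
        ∃ σ : Fin (m + 3) → X, (∀ i, σ i ∈ W) ∧ GoodEdge (fun p => hom (x p) (y p)) σ := by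
  classical
  -- choose Kp
  obtain ⟨Kp, hKp1⟩ := exists_nat_ge (1 / ε)
  have hKp2 : 1 ≤ (Kp : ℝ) * ε := by
    rw [div_le_iff₀ hε] at hKp1; linarith
  have hKp : 0 < Kp := by
    rcases Nat.eq_zero_or_pos Kp with h | h
    · rw [h] at hKp2; norm_num at hKp2
    · exact h
  set K := Kp * (m + 3) with hK
  have hK2 : 2 ≤ K := by
    rw [hK]; nlinarith
  have hKε : ((m : ℝ) + 2) + 1 ≤ K * ε := by
    rw [hK]; push_cast
    nlinarith
  let C := {e : Fin Kp × Fin (m + 3) ≃ Fin K // ∀ κ, StrictMono (fun t => e (κ, t))}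
  have hCfin : Finite C := Subtype.finite
  have hCne : Nonempty C := by
    obtain ⟨e, he, -⟩ := exists_choice (d := m + 3) hK hKp (Finset.univ : Finset (Fin K)) (by
      rw [Finset.card_univ, Fintype.card_fin, hK]
      exact Nat.le_mul_of_pos_left _ hKp)
    exact ⟨⟨e, he⟩⟩
  obtain ⟨R, hR1, hRT⟩ := exists_R (Nat.card C) Nat.card_pos K hK2
  have hR0 : 0 < R := by linarith
  have hlogR : 0 < Real.log R := Real.log_pos hR1
  -- choose N
  obtain ⟨N₁, hN₁⟩ := exists_nat_gt ((K : ℝ) * Real.log 2 / Real.log R)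
  set N := max N₁ n₀ with hN
  have hN1 : (K : ℝ) * Real.log 2 < N * Real.log R := by
    rw [div_lt_iff₀ hlogR] at hN₁
    have : (N₁ : ℝ) ≤ N := by exact_mod_cast le_max_left _ _
    nlinarith
  obtain ⟨B, fB, x, y, E, hx, hy, hE, hcard, c, hc, hsum⟩ :=
    stages hm Kp K hK hKp R hR1.le (by rintro T rfl; exact hRT) N
  have hPpos : 0 < Fintype.card (Pt m B) := by rw [hcard]; positivity
  -- independent sets are small
  have hsmall : ∀ W ∈ indep E, (W.card : ℝ) < ε * Fintype.card (Pt m B) := by
    intro W hW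
    by_contra hcon
    push Not at hcon
    have h1 : R ^ (N * W.card) ≤ R ^ c * 2 ^ Fintype.card (Pt m B) := by
      refine le_trans ?_ hsum
      exact Finset.single_le_sum (f := fun W : Finset (Pt m B) => R ^ (N * W.card))
        (fun W _ => by positivity) hW
    have h2 := Real.log_le_log (by positivity) h1
    rw [Real.log_mul (by positivity) (by positivity), Real.log_pow, Real.log_pow, Real.log_pow] at h2
    push_cast at h2
    have hc' : (K : ℝ) * c = N * (m + 2) * Fintype.card (Pt m B) := by exact_mod_cast hc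
    set P : ℝ := (Fintype.card (Pt m B) : ℝ) with hP
    have hP0 : 0 < P := by rw [hP]; exact_mod_cast hPpos
    have hK0 : (0 : ℝ) < K := by positivity
    -- multiply by K
    have h3 : (K : ℝ) * (N * W.card * Real.log R) ≤ K * (c * Real.log R + P * Real.log 2) :=
      mul_le_mul_of_nonneg_left h2 hK0.le
    have h4 : (K : ℝ) * (c * Real.log R + P * Real.log 2) =
        (N * (m + 2) * Real.log R + K * Real.log 2) * P := by
      have : (K : ℝ) * (c * Real.log R) = N * (m + 2) * P * Real.log R := by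
        rw [← mul_assoc, hc']
      rw [mul_add, this]; ring
    rw [h4] at h3
    have hN0 : (0 : ℝ) ≤ N := Nat.cast_nonneg N
    have h5 : (K : ℝ) * (N * (ε * P) * Real.log R) ≤ K * (N * W.card * Real.log R) := by
      apply mul_le_mul_of_nonneg_left _ hK0.le
      apply mul_le_mul_of_nonneg_right _ hlogR.le
      exact mul_le_mul_of_nonneg_left hcon hN0
    have h6 : (K * ε * (N * Real.log R)) * P ≤ (N * (m + 2) * Real.log R + K * Real.log 2) * P := by
      calc (K * ε * (N * Real.log R)) * P = K * (N * (ε * P) * Real.log R) := by ring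
        _ ≤ _ := h5.trans h3
    have h7 := le_of_mul_le_mul_right h6 hP0
    have h8 : (((m : ℝ) + 2) + 1) * (N * Real.log R) ≤ K * ε * (N * Real.log R) :=
      mul_le_mul_of_nonneg_right hKε (by positivity)
    nlinarith
  -- one more stage
  obtain ⟨⟨e₀, he₀⟩⟩ := hCne
  let e : Pt m B → (Fin Kp × Fin (m + 3) ≃ Fin K) := fun _ => e₀
  obtain ⟨x', y', hx', hy', hE1, hE2⟩ := step hm x hx y hy E hE e (fun _ => he₀)
  have hcard' : Fintype.card (Pt m (Pt m B × Fin Kp)) = Fintype.card (Pt m B) * K := by
    rw [← Fintype.card_congr (liftEquiv e), Fintype.card_prod, Fintype.card_fin]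
  refine ⟨Pt m (Pt m B × Fin Kp), inferInstance, fun p => x' p.1, y', ?_, ?_, ?_⟩
  · rw [hcard', hcard]
    have h1 : N < K ^ N := Nat.lt_pow_self (by omega)
    have h2 : n₀ ≤ N := le_max_right _ _
    calc n₀ ≤ K ^ N := by omega
      _ = 1 * K ^ N * 1 := by ring
      _ ≤ (m + 3) * K ^ N * K := by gcongr <;> omega
  · rintro ⟨β, t⟩ ⟨β', t'⟩ h
    have h1 := (Prod.mk.inj h).1
    have h2 := (Prod.mk.inj h).2
    simp only at h1 h2
    have h3 := hx' h1
    subst h3
    have h4 := (hy' β).injective h2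
    rw [h4]
  · intro W' hW'
    -- some slice is large
    obtain ⟨b, hb⟩ : ∃ b, ε * Fintype.card (Pt m B) ≤ ((slice e W' b).card : ℝ) := by
      by_contra hcon
      push Not at hcon
      have h1 : (W'.card : ℝ) = ∑ b, ((slice e W' b).card : ℝ) := by
        rw [card_slices e W']; push_cast; rfl
      have h2 : ∑ b, ((slice e W' b).card : ℝ) < ∑ _b : Fin K, ε * Fintype.card (Pt m B) := by
        apply Finset.sum_lt_sum_of_nonempty
        · have : 0 < K := by omega
          exact ⟨⟨0, this⟩, Finset.mem_univ _⟩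
        · intro b _; exact hcon b
      rw [Finset.sum_const, Finset.card_univ, Fintype.card_fin, nsmul_eq_mul] at h2
      rw [hcard'] at hW'
      push_cast at hW'
      nlinarith
    have hnot : slice e W' b ∉ indep E := by
      intro h
      exact absurd (hsmall _ h) (not_lt.2 hb)
    simp only [indep, Finset.mem_filter, Finset.mem_univ, true_and, not_and_or] at hnot
    push Not at hnot
    rcases hnot with ⟨σ, hσ, hall⟩ | ⟨β, hall⟩
    · exact ⟨fun i => lift e b (σ i), fun i => (mem_slice e W' b _).1 (hall i), hE1 b σ hσ⟩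
    · exact ⟨fun t => lift e b (β, t), fun t => (mem_slice e W' b _).1 (hall t), hE2 b β⟩

end Pool.Agent.Lib.MP_f8b1fe_co
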