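import Mathlib
import Pool.Agent.Lib.MP_f8b1fe_co.Poly

set_option autoImplicit false

namespace Pool.Agent.Lib.MP_f8b1fe_co

open Set

variable {d : ℕ} {Q : Set (Eu d)}

/-- every boundary point lies in a proper exposed face -/
lemma IsSimplicialPolytope.exists_face (hQ : IsSimplicialPolytope Q) {x : Eu d}
    (hxQ : x ∈ Q) (hx : x ∉ interior Q) :
    ∃ F : Set (Eu d), IsExposed ℝ Q F ∧ F ≠ Q ∧ x ∈ F := by
  obtain ⟨l, hl⟩ := geometric_hahn_banach_open_point hQ.convex.interior isOpen_interior hx
  have hle : ∀ y ∈ Q, l y ≤ l x := by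
    have h1 : closure (interior Q) = Q := by
      rw [hQ.convex.closure_interior_eq_closure_of_nonempty_interior hQ.full_dim,
        hQ.isCompact.isClosed.closure_eq]
    have h2 : Q ⊆ {y | l y ≤ l x} := by
      rw [← h1]
      exact closure_minimal (fun y hy => (hl y hy).le)
        (isClosed_le l.continuous continuous_const)
    exact h2
  refine ⟨{z ∈ Q | ∀ y ∈ Q, l y ≤ l z}, fun _ => ⟨l, rfl⟩, ?_, hxQ, hle⟩
  intro h
  obtain ⟨z, hz⟩ := hQ.full_dim
  have h3 : z ∈ {z ∈ Q | ∀ y ∈ Q, l y ≤ l z} := by rw [h]; exact interior_subset hz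
  exact absurd (h3.2 x hxQ) (not_le.2 (hl z hz))

/-- The boundary complex `∂Q` of a simplicial polytope `Q`: its vertex set is the set of vertices
(extreme points) of `Q`, and a nonempty set of vertices is a face when its convex hull is a proper
face of `Q`. -/
def boundaryComplex (Q : Set (Eu d)) (hQ : IsSimplicialPolytope Q) :
    AbstractSimplicialComplex (Q.extremePoints ℝ) where
  faces := {s | s.Nonempty ∧ IsExposed ℝ Q (convexHull ℝ (Subtype.val '' (s : Set (Q.extremePoints ℝ)))) ∧
    convexHull ℝ (Subtype.val '' (s : Set (Q.extremePoints ℝ))) ≠ Q}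
  isRelLowerSet_faces := by
    rintro s ⟨hs, hs1, hs2⟩
    refine ⟨hs, fun t hts ht => ⟨ht, ?_⟩⟩
    refine hQ.exposed_of_subset hs1 hs2 ?_ ?_ ?_
    · rintro _ ⟨v, _, rfl⟩; exact v.2
    · exact (image_mono (by exact_mod_cast hts)).trans (subset_convexHull ℝ _)
    · exact (Finset.coe_nonempty.2 ht).image _
  singleton_mem := by
    intro v
    have hvQ : (v : Eu d) ∈ Q := v.2.1
    have hvi : (v : Eu d) ∉ interior Q := by
      have : Nonempty (Fin d) := ⟨⟨0, hQ.dim_pos⟩⟩
      have hnt : Nontrivial (Eu d) := inferInstance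
      intro h
      exact (Set.disjoint_left.1 (disjoint_interior_extremePoints Q)) h v.2
    obtain ⟨F, hF, hFQ, hvF⟩ := hQ.exists_face hvQ hvi
    refine ⟨Finset.singleton_nonempty v, ?_⟩
    refine hQ.exposed_of_subset hF hFQ ?_ ?_ ?_
    · rintro _ ⟨w, _, rfl⟩; exact w.2
    · rintro _ ⟨w, hw, rfl⟩
      simp at hw
      rw [hw]; exact hvF
    · exact ⟨v, v, by simp, rfl⟩

/-- A facet of a simplicial complex is a face that is maximal under inclusion. -/
def IsFacet {V : Type} (K : AbstractSimplicialComplex V) (F : Finset V) : Prop :=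
  F ∈ K.faces ∧ ∀ G ∈ K.faces, F ⊆ G → F = G

/-- A transversal is a set of vertices meeting every facet. -/
def IsTransversal {V : Type} (K : AbstractSimplicialComplex V) (W : Finset V) : Prop :=
  ∀ F, IsFacet K F → ∃ v ∈ F, v ∈ W

/-- The transversal number: the least size of a transversal. -/
noncomputable def transversalNumber {V : Type} (K : AbstractSimplicialComplex V) : ℕ :=
  sInf {k | ∃ W : Finset V, IsTransversal K W ∧ W.card = k}

/-- The transversal ratio `T(K) / |V|`. -/
noncomputable def transversalRatio {V : Type} (K : AbstractSimplicialComplex V) : ℝ :=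
  (transversalNumber K : ℝ) / (Nat.card V : ℝ)

/-- The geometric realization of a complex with finite vertex set `V`: the union, over the faces,
of the closed simplices spanned by them in the standard simplex of `ℝ^V`. -/
def realization {V : Type} [Fintype V] (K : AbstractSimplicialComplex V) : Set (V → ℝ) :=
  {w | w ∈ stdSimplex ℝ V ∧ ∃ F ∈ K.faces, ∀ v, v ∉ F → w v = 0}

/-- A simplicial `(d-1)`-sphere: the geometric realization is homeomorphic to the unit sphere of
`ℝ^d`. -/
def IsSimplicialSphere (d : ℕ) {V : Type} [Fintype V] (K : AbstractSimplicialComplex V) : Prop :=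
  Nonempty (realization K ≃ₜ Metric.sphere (0 : Eu d) 1)

/-- `τ^P_d`, the limit superior over `n` of the largest transversal ratio of the boundary complex
of a simplicial `d`-polytope with `n` vertices. -/
noncomputable def tauP (d : ℕ) : ℝ :=
  Filter.limsup (fun n : ℕ => sSup {r : ℝ | ∃ (Q : Set (Eu d)) (hQ : IsSimplicialPolytope Q),
    Nat.card (Q.extremePoints ℝ) = n ∧ transversalRatio (boundaryComplex Q hQ) = r}) Filter.atTop

/-- `τ^S_d`, the limit superior over `n` of the largest transversal ratio of a simplicial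
`(d-1)`-sphere with `n` vertices. -/
noncomputable def tauS (d : ℕ) : ℝ :=
  Filter.limsup (fun n : ℕ => sSup {r : ℝ | ∃ (V : Type) (_ : Fintype V)
    (K : AbstractSimplicialComplex V), IsSimplicialSphere d K ∧
    Nat.card V = n ∧ transversalRatio K = r}) Filter.atTop

end Pool.Agent.Lib.MP_f8b1fe_co
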