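import Mathlib
import Pool.Agent.Lib.MP_f8b1fe_co.Defs

set_option autoImplicit false

namespace Pool.Agent.Lib.MP_f8b1fe_co

open Set

variable {d : ℕ} {Q : Set (Eu d)}

/-- a proper exposed face does not meet the interior -/
lemma not_mem_interior_of_exposed {F : Set (Eu d)} (hF : IsExposed ℝ Q F) (hFQ : F ≠ Q) {x : Eu d}
    (hx : x ∈ F) : x ∉ interior Q := by
  intro hxi
  obtain ⟨l, hl⟩ := hF ⟨x, hx⟩
  have hmax : ∀ y ∈ Q, l y ≤ l x := by rw [hl] at hx; exact hx.2
  have hmin : ∀ y ∈ Q, l x ≤ l y := by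
    intro y hy
    have hcont : Continuous fun ε : ℝ => x + ε • (x - y) := by fun_prop
    have h1 : ∀ᶠ ε in nhdsWithin (0 : ℝ) (Ioi 0), x + ε • (x - y) ∈ Q := by
      have h2 := (hcont.tendsto 0).eventually (by
        simpa using mem_interior_iff_mem_nhds.1 hxi : Q ∈ nhds (x + (0:ℝ) • (x - y)))
      exact h2.filter_mono nhdsWithin_le_nhds
    obtain ⟨ε, hε, hε0⟩ := (h1.and self_mem_nhdsWithin).exists
    have hε0 : 0 < ε := hε0
    have h3 := hmax _ hε
    simp only [map_add, map_smul, map_sub, smul_eq_mul] at h3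
    have h4 : ε * (l x - l y) ≤ 0 := by linarith
    by_contra h5
    push Not at h5
    have : 0 < ε * (l x - l y) := mul_pos hε0 (by linarith)
    linarith
  apply hFQ
  apply Subset.antisymm hF.subset
  intro y hy
  rw [hl]
  exact ⟨hy, fun z hz => (hmax z hz).trans (hmin y hy)⟩

/-- if a convex combination of points of `Q` lies in an exposed face, all the points used do -/
lemma mem_of_combination_mem {V : Type*} [Fintype V] {p : V → Eu d} (hp : ∀ v, p v ∈ Q)
    {F : Set (Eu d)} (hF : IsExposed ℝ Q F) {w : V → ℝ} (hw : w ∈ stdSimplex ℝ V)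
    (hz : ∑ v, w v • p v ∈ F) {v : V} (hv : w v ≠ 0) : p v ∈ F := by
  obtain ⟨l, hl⟩ := hF ⟨_, hz⟩
  have hmax : ∀ y ∈ Q, l y ≤ l (∑ v, w v • p v) := by rw [hl] at hz; exact hz.2
  set z := ∑ v, w v • p v with hzdef
  have hsum : ∑ u, w u * (l z - l (p u)) = 0 := by
    have h1 : l z = ∑ u, w u * l (p u) := by
      rw [hzdef, map_sum]; simp
    simp only [mul_sub, Finset.sum_sub_distrib]
    rw [← Finset.sum_mul, hw.2, one_mul, ← h1, sub_self]
  have hnn : ∀ u ∈ Finset.univ, 0 ≤ w u * (l z - l (p u)) := fun u _ =>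
    mul_nonneg (hw.1 u) (sub_nonneg.2 (hmax _ (hp u)))
  have := (Finset.sum_eq_zero_iff_of_nonneg hnn).1 hsum v (Finset.mem_univ v)
  rcases mul_eq_zero.1 this with h | h
  · exact absurd h hv
  · rw [hl]
    exact ⟨hp v, fun y hy => by
      have := hmax y hy
      linarith⟩

/-- the map from the realization to space -/
noncomputable def toSpace (Q : Set (Eu d)) [Fintype (Q.extremePoints ℝ)]
    (w : Q.extremePoints ℝ → ℝ) : Eu d := ∑ v, w v • (v : Eu d)

lemma continuous_toSpace [Fintype (Q.extremePoints ℝ)] : Continuous (toSpace Q) := by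
  unfold toSpace
  fun_prop

lemma toSpace_mem_face [Fintype (Q.extremePoints ℝ)]
    {w : Q.extremePoints ℝ → ℝ} (hw : w ∈ stdSimplex ℝ (Q.extremePoints ℝ))
    {F : Finset (Q.extremePoints ℝ)} (hwF : ∀ v, v ∉ F → w v = 0) :
    toSpace Q w ∈ convexHull ℝ (Subtype.val '' (F : Set (Q.extremePoints ℝ))) := by
  classical
  have h1 : toSpace Q w = ∑ v ∈ F, w v • (v : Eu d) := by
    unfold toSpace
    symm
    apply Finset.sum_subset (Finset.subset_univ F)
    intro v _ hv
    rw [hwF v hv, zero_smul]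
  rw [h1]
  apply (convex_convexHull ℝ _).sum_mem
  · intro v _; exact hw.1 v
  · rw [← hw.2]
    apply Finset.sum_subset (Finset.subset_univ F)
    intro v _ hv
    exact hwF v hv
  · intro v hv
    exact subset_convexHull ℝ _ ⟨v, hv, rfl⟩

lemma toSpace_mem_frontier (hQ : IsSimplicialPolytope Q) [Fintype (Q.extremePoints ℝ)]
    {w : Q.extremePoints ℝ → ℝ} (hw : w ∈ realization (boundaryComplex Q hQ)) :
    toSpace Q w ∈ frontier Q := by
  obtain ⟨hw1, F, ⟨_, hF1, hF2⟩, hwF⟩ := hw
  have h1 := toSpace_mem_face hw1 hwF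
  rw [hQ.isCompact.isClosed.frontier_eq]
  exact ⟨hF1.subset h1, not_mem_interior_of_exposed hF1 hF2 h1⟩

lemma face_subset_of_mem (hQ : IsSimplicialPolytope Q)
    {F : Finset (Q.extremePoints ℝ)} (hF : F ∈ (boundaryComplex Q hQ).faces)
    {v : Q.extremePoints ℝ}
    (hv : (v : Eu d) ∈ convexHull ℝ (Subtype.val '' (F : Set (Q.extremePoints ℝ)))) : v ∈ F := by
  obtain ⟨_, hF1, hF2⟩ := hF
  have h1 : (v : Eu d) ∈ (convexHull ℝ (Subtype.val '' (F : Set (Q.extremePoints ℝ)))).extremePoints ℝ :=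
    inter_extremePoints_subset_extremePoints_of_subset hF1.subset ⟨hv, v.2⟩
  obtain ⟨u, hu, huv⟩ := extremePoints_convexHull_subset h1
  have : u = v := Subtype.ext huv
  rw [← this]; exact hu

lemma face_affineIndependent (hQ : IsSimplicialPolytope Q)
    {F : Finset (Q.extremePoints ℝ)} (hF : F ∈ (boundaryComplex Q hQ).faces) :
    AffineIndependent ℝ (fun v : F => ((v : Q.extremePoints ℝ) : Eu d)) := by
  obtain ⟨_, hF1, hF2⟩ := hF
  obtain ⟨s, hs, hsF⟩ := hQ.simplicial _ hF1 hF2
  have hsub : ∀ v ∈ F, ((v : Q.extremePoints ℝ) : Eu d) ∈ s := by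
    intro v hv
    have h1 : (v : Eu d) ∈ (convexHull ℝ (Subtype.val '' (F : Set (Q.extremePoints ℝ)))).extremePoints ℝ :=
      inter_extremePoints_subset_extremePoints_of_subset hF1.subset
        ⟨subset_convexHull ℝ _ ⟨v, hv, rfl⟩, v.2⟩
    rw [hsF] at h1
    exact extremePoints_convexHull_subset h1
  let f : F ↪ s := ⟨fun v => ⟨((v : Q.extremePoints ℝ) : Eu d), hsub v v.2⟩, by
    intro a b hab
    have := congrArg Subtype.val hab
    exact Subtype.ext (Subtype.ext this)⟩
  exact hs.comp_embedding f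

lemma toSpace_injOn (hQ : IsSimplicialPolytope Q) [Fintype (Q.extremePoints ℝ)] :
    InjOn (toSpace Q) (realization (boundaryComplex Q hQ)) := by
  classical
  intro w₁ hw₁ w₂ hw₂ h
  obtain ⟨hs1, F, hF, hwF⟩ := hw₁
  obtain ⟨hs2, F', hF', hwF'⟩ := hw₂
  have h1 := toSpace_mem_face hs1 hwF
  have hF2 : ∀ v, v ∉ F → w₂ v = 0 := by
    intro v hv
    by_contra hne
    apply hv
    apply face_subset_of_mem hQ hF
    rw [h] at h1
    exact mem_of_combination_mem (p := fun v : Q.extremePoints ℝ => (v : Eu d))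
      (fun v => v.2.1) hF.2.1 hs2 h1 hne
  have hind := face_affineIndependent hQ hF
  rw [affineIndependent_iff] at hind
  have key := hind Finset.univ (fun v => w₁ v - w₂ v) (by
    rw [Finset.sum_sub_distrib]
    have e1 : ∑ v : F, w₁ v = 1 := by
      rw [← hs1.2, Finset.sum_coe_sort F (fun v => w₁ v)]
      exact Finset.sum_subset (Finset.subset_univ F) (fun v _ hv => hwF v hv)
    have e2 : ∑ v : F, w₂ v = 1 := by
      rw [← hs2.2, Finset.sum_coe_sort F (fun v => w₂ v)]
      exact Finset.sum_subset (Finset.subset_univ F) (fun v _ hv => hF2 v hv)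
    rw [e1, e2, sub_self]) (by
    simp only [sub_smul, Finset.sum_sub_distrib]
    have e1 : ∑ v : F, w₁ v • ((v : Q.extremePoints ℝ) : Eu d) = toSpace Q w₁ := by
      rw [Finset.sum_coe_sort F (fun v => w₁ v • (v : Eu d))]
      exact Finset.sum_subset (Finset.subset_univ F) (fun v _ hv => by rw [hwF v hv, zero_smul])
    have e2 : ∑ v : F, w₂ v • ((v : Q.extremePoints ℝ) : Eu d) = toSpace Q w₂ := by
      rw [Finset.sum_coe_sort F (fun v => w₂ v • (v : Eu d))]
      exact Finset.sum_subset (Finset.subset_univ F) (fun v _ hv => by rw [hF2 v hv, zero_smul])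
    rw [e1, e2, h, sub_self])
  funext v
  by_cases hv : v ∈ F
  · have := key ⟨v, hv⟩ (Finset.mem_univ _)
    simpa [sub_eq_zero] using this
  · rw [hwF v hv, hF2 v hv]

lemma toSpace_surjOn (hQ : IsSimplicialPolytope Q) [Fintype (Q.extremePoints ℝ)] :
    SurjOn (toSpace Q) (realization (boundaryComplex Q hQ)) (frontier Q) := by
  classical
  intro x hx
  rw [hQ.isCompact.isClosed.frontier_eq] at hx
  obtain ⟨F, hF, hFQ, hxF⟩ := hQ.exists_face hx.1 hx.2
  obtain ⟨l, hl⟩ := hF ⟨x, hxF⟩
  have hmax : ∀ y ∈ Q, l y ≤ l x := by rw [hl] at hxF; exact hxF.2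
  have hx1 : x ∈ convexHull ℝ (hQ.verts : Set (Eu d)) := by rw [hQ.convexHull_verts]; exact hx.1
  have hx2 := maximizers_convexHull hQ.verts l (l x)
    (fun s hs => hmax s ((hQ.mem_verts s).1 hs).1) hx1 le_rfl
  set T : Finset (Q.extremePoints ℝ) := Finset.univ.filter (fun v => l (v : Eu d) = l x) with hT
  have hTe : {s : Eu d | s ∈ hQ.verts ∧ l s = l x} = ((T.image Subtype.val : Finset (Eu d)) : Set (Eu d)) := by
    ext s
    simp only [Set.mem_ofPred_eq, Finset.coe_image, Set.mem_image, Finset.mem_coe, hT,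
      Finset.mem_filter, Finset.mem_univ, true_and]
    constructor
    · rintro ⟨hs, hls⟩
      exact ⟨⟨s, (hQ.mem_verts s).1 hs⟩, hls, rfl⟩
    · rintro ⟨v, hv, rfl⟩
      exact ⟨(hQ.mem_verts _).2 v.2, hv⟩
  rw [hTe, Finset.mem_convexHull'] at hx2
  obtain ⟨w, hw0, hw1, hwx⟩ := hx2
  have hinj : InjOn (Subtype.val : Q.extremePoints ℝ → Eu d) (T : Set (Q.extremePoints ℝ)) :=
    Subtype.val_injective.injOn
  rw [Finset.sum_image hinj] at hw1 hwx
  have hTne : T.Nonempty := by
    rw [Finset.nonempty_iff_ne_empty]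
    intro h
    rw [h] at hw1
    simp at hw1
  refine ⟨fun v => if v ∈ T then w v else 0, ⟨⟨fun v => ?_, ?_⟩, T, ⟨hTne, ?_⟩, fun v hv => ?_⟩, ?_⟩
  · dsimp only
    split_ifs with hv
    · exact hw0 _ (Finset.mem_image_of_mem _ hv)
    · exact le_rfl
  · rw [Finset.sum_ite_mem, Finset.univ_inter, hw1]
  · refine hQ.exposed_of_subset hF hFQ ?_ ?_ ?_
    · rintro _ ⟨v, _, rfl⟩; exact v.2
    · rintro _ ⟨v, hv, rfl⟩
      rw [hl]
      have : l (v : Eu d) = l x := by simpa [hT] using hv
      exact ⟨v.2.1, fun y hy => by rw [this]; exact hmax y hy⟩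
    · exact (Finset.coe_nonempty.2 hTne).image _
  · simp [hv]
  · unfold toSpace
    simp only [ite_smul, zero_smul]
    rw [Finset.sum_ite_mem, Finset.univ_inter, hwx]

lemma isClosed_realization {V : Type} [Fintype V] (K : AbstractSimplicialComplex V) :
    IsClosed (realization K) := by
  have : realization K = stdSimplex ℝ V ∩ ⋃ F ∈ K.faces, {w : V → ℝ | ∀ v, v ∉ F → w v = 0} := by
    ext w
    simp [realization]
  rw [this]
  apply (isClosed_stdSimplex ℝ V).inter
  apply Set.Finite.isClosed_biUnion (Set.toFinite _)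
  intro F _
  have : {w : V → ℝ | ∀ v, v ∉ F → w v = 0} = ⋂ v, ⋂ (_ : v ∉ F), {w : V → ℝ | w v = 0} := by
    ext w; simp
  rw [this]
  exact isClosed_iInter fun v => isClosed_iInter fun _ =>
    isClosed_eq (continuous_apply v) continuous_const

lemma isCompact_realization {V : Type} [Fintype V] (K : AbstractSimplicialComplex V) :
    IsCompact (realization K) :=
  (isCompact_stdSimplex ℝ V).of_isClosed_subset (isClosed_realization K) (fun _ hw => hw.1)

/-- The boundary complex of a simplicial polytope is a simplicial sphere. -/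
theorem isSimplicialSphere_boundaryComplex (hQ : IsSimplicialPolytope Q)
    [Fintype (Q.extremePoints ℝ)] : IsSimplicialSphere d (boundaryComplex Q hQ) := by
  obtain ⟨h, _, _, hfr⟩ := exists_homeomorph_image_interior_closure_frontier_eq_unitBall
    hQ.convex hQ.full_dim hQ.isCompact.isBounded
  let K := boundaryComplex Q hQ
  have hbij : BijOn (toSpace Q) (realization K) (frontier Q) :=
    ⟨fun w hw => toSpace_mem_frontier hQ hw, toSpace_injOn hQ, toSpace_surjOn hQ⟩
  have : CompactSpace (realization K) := isCompact_iff_compactSpace.1 (isCompact_realization K)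
  let e : realization K ≃ frontier Q := hbij.equiv (toSpace Q)
  have he : Continuous e := by
    apply Continuous.subtype_mk
    exact continuous_toSpace.comp continuous_subtype_val
  exact ⟨((Continuous.homeoOfEquivCompactToT2 he).trans (h.image (frontier Q))).trans
    (Homeomorph.setCongr hfr)⟩

end Pool.Agent.Lib.MP_f8b1fe_co
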