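import Mathlib
import Pool.Agent.Lib.MP_f8b1fe_co.Sphere

set_option autoImplicit false
set_option linter.unusedSectionVars false

namespace Pool.Agent.Lib.MP_f8b1fe_co

open Set

variable {d : ℕ} {X : Type} [Fintype X] [DecidableEq X]

/-- general position -/
def GenPos (q : X → Eu d) : Prop :=
  ∀ S : Finset X, S.card = d + 1 → AffineIndependent ℝ (fun s : S => q s)

lemma GenPos.small {q : X → Eu d} (hq : GenPos q) (hcard : d + 1 ≤ Fintype.card X)
    {S : Finset X} (hS : S.card ≤ d + 1) : AffineIndependent ℝ (fun s : S => q s) := by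
  obtain ⟨T, hST, hT⟩ := Finset.exists_superset_card_eq hS (by simpa using hcard)
  let f : S ↪ T := ⟨fun s => ⟨s, hST s.2⟩, by
    intro a b hab
    exact Subtype.ext (congrArg (fun x : T => (x : X)) hab)⟩
  exact (hq T hT).comp_embedding f

lemma GenPos.affineSpan_eq_top {q : X → Eu d} (hq : GenPos q)
    {S : Finset X} (hS : S.card = d + 1) : affineSpan ℝ (q '' (S : Set X)) = ⊤ := by
  have h := hq S hS
  have h2 := (h.affineSpan_eq_top_iff_card_eq_finrank_add_one).2 (by simp [hS])
  have h3 : range (fun s : S => q s) = q '' (S : Set X) := by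
    ext x; simp
  rwa [h3] at h2

lemma GenPos.injective {q : X → Eu d} (hq : GenPos q) (hcard : d + 1 ≤ Fintype.card X) (hd : 1 ≤ d) :
    Function.Injective q := by
  intro a b hab
  by_contra hne
  have h := hq.small hcard (S := {a, b}) (by
    rw [Finset.card_pair hne]; omega)
  have h1 := h.injective (a₁ := ⟨a, by simp⟩) (a₂ := ⟨b, by simp⟩) hab
  exact hne (congrArg Subtype.val h1)

/-- at most `d` points on a hyperplane -/
lemma GenPos.card_le {q : X → Eu d} (hq : GenPos q) {l : StrongDual ℝ (Eu d)} (hl : l ≠ 0) {c : ℝ}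
    {S : Finset X} (hS : ∀ s ∈ S, l (q s) = c) : S.card ≤ d := by
  by_contra h
  push Not at h
  obtain ⟨T, hTS, hT⟩ := Finset.exists_subset_card_eq (s := S) (n := d + 1) (by omega)
  have h1 := hq.affineSpan_eq_top hT
  apply hl
  -- the affine subspace {l = c}
  have h2 : ∀ x : Eu d, l x = c := by
    intro x
    have hx : x ∈ affineSpan ℝ (q '' (T : Set X)) := by rw [h1]; trivial
    refine affineSpan_induction (p := fun x => l x = c) hx ?_ ?_
    · rintro y ⟨s, hs, rfl⟩
      exact hS s (hTS hs)
    · intro a u v w hu hv hw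
      simp only [vsub_eq_sub, vadd_eq_add, map_add, map_smul, map_sub, smul_eq_mul]
      rw [hu, hv, hw]; ring
  ext x
  have h3 := h2 0
  have h4 := h2 x
  rw [map_zero] at h3
  simp [h4, ← h3]

lemma GenPos.isSimplicialPolytope {q : X → Eu d} (hq : GenPos q)
    (hcard : d + 1 ≤ Fintype.card X) (hd : 0 < d) :
    IsSimplicialPolytope (convexHull ℝ (range q)) := by
  classical
  have hrange : range q = ((Finset.univ.image q : Finset (Eu d)) : Set (Eu d)) := by
    ext x; simp
  refine ⟨hd, ⟨Finset.univ.image q, by rw [hrange]⟩, ?_, ?_⟩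
  · rw [interior_convexHull_nonempty_iff_affineSpan_eq_top]
    obtain ⟨S, -, hS⟩ := Finset.exists_superset_card_eq (s := (∅ : Finset X)) (n := d + 1)
      (by simp) (by simpa using hcard)
    have h := hq.affineSpan_eq_top hS
    rw [eq_top_iff, ← h]
    exact affineSpan_mono ℝ (image_subset_range q _)
  · intro F hF hFQ
    rcases F.eq_empty_or_nonempty with rfl | hne
    · refine ⟨∅, ?_, by simp⟩
      have : IsEmpty ((∅ : Finset (Eu d)) : Type) := by
        constructor; rintro ⟨x, hx⟩; simp at hx
      exact affineIndependent_of_subsingleton ℝ _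
    · obtain ⟨l, hl⟩ := hF hne
      obtain ⟨z, hz⟩ := hne
      have hmaxz : z ∈ convexHull ℝ (range q) ∧ ∀ y ∈ convexHull ℝ (range q), l y ≤ l z := by
        rw [hl] at hz; exact hz
      have hl0 : l ≠ 0 := by
        intro h0
        apply hFQ
        rw [hl, h0]
        ext x; simp
      set M := l z with hM
      set T : Finset X := Finset.univ.filter (fun p => l (q p) = M) with hT
      have hTe : ({s : Eu d | s ∈ Finset.univ.image q ∧ l s = M}) =
          ((T.image q : Finset (Eu d)) : Set (Eu d)) := by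
        ext s
        simp only [Set.mem_ofPred_eq, Finset.coe_image, Set.mem_image, Finset.mem_coe, hT,
          Finset.mem_filter, Finset.mem_univ, true_and, Finset.mem_image]
        constructor
        · rintro ⟨⟨p, rfl⟩, hp⟩; exact ⟨p, hp, rfl⟩
        · rintro ⟨p, hp, rfl⟩; exact ⟨⟨p, rfl⟩, hp⟩
      have hle : ∀ s ∈ Finset.univ.image q, l s ≤ M := by
        intro s hs
        apply hmaxz.2
        rw [hrange]
        exact subset_convexHull ℝ _ hs
      have hz2 := maximizers_convexHull (Finset.univ.image q) l M hle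
        (by rw [← hrange]; exact hmaxz.1) le_rfl
      have hTne : ({s : Eu d | s ∈ Finset.univ.image q ∧ l s = M}).Nonempty :=
        convexHull_nonempty_iff.1 ⟨z, hz2⟩
      have hface := isExposed_convexHull_of_le (Finset.univ.image q) l M hle _ rfl hTne
      have hFeq : F = convexHull ℝ ((T.image q : Finset (Eu d)) : Set (Eu d)) := by
        rw [← hTe, hface, ← hrange]
        exact hl
      refine ⟨T.image q, ?_, hFeq⟩
      have hTcard : T.card ≤ d := hq.card_le hl0 (fun s hs => by simpa [hT] using hs)
      have h1 := hq.small hcard (S := T) (by omega)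
      have h2 := h1.range
      have h3 : range (fun s : T => q s) = ((T.image q : Finset (Eu d)) : Set (Eu d)) := by
        ext x; simp
      rw [h3] at h2
      exact h2

/-- Main construction lemma: points in general position, each a strict vertex, such that every
large set of points contains a strict facet, give a simplicial polytope of large transversal
number. -/
theorem build (hd : 1 ≤ d) (q : X → Eu d) (hcard : d + 1 ≤ Fintype.card X) (hq : GenPos q)
    (hV : ∀ p, ∃ l : StrongDual ℝ (Eu d), ∀ p', p' ≠ p → l (q p') < l (q p)) (t : ℕ)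
    (hF : ∀ W : Finset X, t ≤ W.card → ∃ S ⊆ W, S.card = d ∧
      ∃ (l : StrongDual ℝ (Eu d)) (c : ℝ), (∀ s ∈ S, l (q s) = c) ∧ (∀ p, p ∉ S → l (q p) < c)) :
    ∃ (Q : Set (Eu d)) (hQ : IsSimplicialPolytope Q),
      Nat.card (Q.extremePoints ℝ) = Fintype.card X ∧
      (Fintype.card X : ℝ) - t ≤ transversalNumber (boundaryComplex Q hQ) := by
  classical
  have hinj := hq.injective hcard hd
  have hQ := hq.isSimplicialPolytope hcard (by omega)
  set Q := convexHull ℝ (range q) with hQdef
  have hrange : range q = ((Finset.univ.image q : Finset (Eu d)) : Set (Eu d)) := by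
    ext x; simp
  have hext : Q.extremePoints ℝ = range q := by
    apply Subset.antisymm extremePoints_convexHull_subset
    rintro _ ⟨p, rfl⟩
    obtain ⟨l, hl⟩ := hV p
    have hT : ({q p} : Set (Eu d)) = {s : Eu d | s ∈ Finset.univ.image q ∧ l s = l (q p)} := by
      ext s
      simp only [mem_singleton_iff, Set.mem_ofPred_eq, Finset.mem_image, Finset.mem_univ, true_and]
      constructor
      · rintro rfl; exact ⟨⟨p, rfl⟩, rfl⟩
      · rintro ⟨⟨p', rfl⟩, h⟩
        by_contra hne
        have : p' ≠ p := fun h => hne (by rw [h])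
        exact absurd h (hl p' this).ne
    have h1 := isExposed_convexHull_of_le (Finset.univ.image q) l (l (q p)) (by
      intro s hs
      obtain ⟨p', -, rfl⟩ := Finset.mem_image.1 hs
      by_cases hp : p' = p
      · rw [hp]
      · exact (hl p' hp).le) {q p} hT (singleton_nonempty _)
    rw [convexHull_singleton, ← hrange, ← hQdef] at h1
    have h2 : IsExposed ℝ Q {q p} := fun _ => ⟨l, h1⟩
    exact isExtreme_singleton.1 h2.isExtreme
  have hmem : ∀ p, q p ∈ Q.extremePoints ℝ := fun p => by rw [hext]; exact ⟨p, rfl⟩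
  let e : X ↪ Q.extremePoints ℝ := ⟨fun p => ⟨q p, hmem p⟩, fun a b hab =>
    hinj (congrArg Subtype.val hab)⟩
  have hesurj : ∀ v : Q.extremePoints ℝ, ∃ p, e p = v := by
    rintro ⟨v, hv⟩
    rw [hext] at hv
    obtain ⟨p, rfl⟩ := hv
    exact ⟨p, rfl⟩
  have hcardV : Nat.card (Q.extremePoints ℝ) = Fintype.card X := by
    rw [← Nat.card_eq_fintype_card]
    exact (Nat.card_congr (Equiv.ofBijective e ⟨e.injective, hesurj⟩)).symm
  refine ⟨Q, hQ, hcardV, ?_⟩
  -- facets
  have hfacet : ∀ S : Finset X, S.card = d →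
      (∃ (l : StrongDual ℝ (Eu d)) (c : ℝ), (∀ s ∈ S, l (q s) = c) ∧ (∀ p, p ∉ S → l (q p) < c)) →
      IsFacet (boundaryComplex Q hQ) (S.map e) := by
    rintro S hS ⟨l, c, hl1, hl2⟩
    have himg : Subtype.val '' ((S.map e : Finset (Q.extremePoints ℝ)) : Set (Q.extremePoints ℝ)) =
        q '' (S : Set X) := by
      ext x
      simp only [Finset.coe_map, Set.mem_image, Finset.mem_coe]
      constructor
      · rintro ⟨_, ⟨p, hp, rfl⟩, rfl⟩; exact ⟨p, hp, rfl⟩
      · rintro ⟨p, hp, rfl⟩; exact ⟨e p, ⟨p, hp, rfl⟩, rfl⟩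
    have hSne : S.Nonempty := Finset.card_pos.1 (by omega)
    have hT : q '' (S : Set X) = {s : Eu d | s ∈ Finset.univ.image q ∧ l s = c} := by
      ext s
      simp only [Set.mem_image, Finset.mem_coe, Set.mem_ofPred_eq, Finset.mem_image,
        Finset.mem_univ, true_and]
      constructor
      · rintro ⟨p, hp, rfl⟩; exact ⟨⟨p, rfl⟩, hl1 p hp⟩
      · rintro ⟨⟨p, rfl⟩, h⟩
        refine ⟨p, ?_, rfl⟩
        by_contra hp
        exact absurd h (hl2 p hp).ne
    have hle : ∀ s ∈ Finset.univ.image q, l s ≤ c := by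
      intro s hs
      obtain ⟨p', -, rfl⟩ := Finset.mem_image.1 hs
      by_cases hp : p' ∈ S
      · exact (hl1 p' hp).le
      · exact (hl2 p' hp).le
    have h1 := isExposed_convexHull_of_le (Finset.univ.image q) l c hle _ hT
      (hSne.image q |> fun h => by simpa using h)
    rw [← hrange, ← hQdef] at h1
    refine ⟨⟨hSne.map, ?_, ?_⟩, ?_⟩
    · rw [himg]; exact fun _ => ⟨l, h1⟩
    · rw [himg]
      intro h
      -- there is a point outside S
      obtain ⟨p, hp⟩ : ∃ p, p ∉ S := by
        by_contra hall
        push Not at hall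
        have : S = Finset.univ := Finset.eq_univ_iff_forall.2 hall
        rw [this, Finset.card_univ] at hS
        omega
      obtain ⟨s, hs⟩ := hSne
      have h2 : q p ∈ {x ∈ Q | ∀ y ∈ Q, l y ≤ l x} := by
        rw [← h1, h]; exact subset_convexHull ℝ _ ⟨p, rfl⟩
      have h3 := h2.2 (q s) (subset_convexHull ℝ _ ⟨s, rfl⟩)
      rw [hl1 s hs] at h3
      exact absurd (hl2 p hp) (not_lt.2 h3)
    · intro G hG hSG
      obtain ⟨hGne, hG1, hG2⟩ := hG
      -- G has at most d elements
      obtain ⟨v0, hv0⟩ := hGne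
      obtain ⟨l', hl'⟩ := hG1 ⟨(v0 : Eu d), subset_convexHull ℝ _ ⟨v0, hv0, rfl⟩⟩
      have hl'0 : l' ≠ 0 := by
        intro h0
        apply hG2
        rw [hl', h0]
        ext x; simp
      set G' : Finset X := Finset.univ.filter (fun p => e p ∈ G) with hG'
      have hGmap : G'.map e = G := by
        ext v
        simp only [Finset.mem_map, hG', Finset.mem_filter, Finset.mem_univ, true_and]
        constructor
        · rintro ⟨p, hp, rfl⟩; exact hp
        · intro hv
          obtain ⟨p, rfl⟩ := hesurj v
          exact ⟨p, hv, rfl⟩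
      have hconst : ∀ p ∈ G', l' (q p) = l' (v0 : Eu d) := by
        intro p hp
        have hp' : e p ∈ G := by simpa [hG'] using hp
        have a1 : q p ∈ convexHull ℝ (Subtype.val '' (G : Set (Q.extremePoints ℝ))) :=
          subset_convexHull ℝ _ ⟨e p, hp', rfl⟩
        have a2 : (v0 : Eu d) ∈ convexHull ℝ (Subtype.val '' (G : Set (Q.extremePoints ℝ))) :=
          subset_convexHull ℝ _ ⟨v0, hv0, rfl⟩
        rw [hl'] at a1 a2
        exact le_antisymm (a2.2 _ a1.1) (a1.2 _ a2.1)
      have hGcard : G.card ≤ d := by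
        rw [← hGmap, Finset.card_map]
        exact hq.card_le hl'0 hconst
      exact Finset.eq_of_subset_of_card_le hSG (by rw [Finset.card_map, hS]; exact hGcard)
  -- transversal
  have hne : {k | ∃ W : Finset (Q.extremePoints ℝ), IsTransversal (boundaryComplex Q hQ) W ∧
      W.card = k}.Nonempty := by
    have : Finite (Q.extremePoints ℝ) := hQ.finite_extremePoints
    have : Fintype (Q.extremePoints ℝ) := Fintype.ofFinite _
    refine ⟨_, Finset.univ, ?_, rfl⟩
    intro F hF
    obtain ⟨v, hv⟩ := hF.1.1
    exact ⟨v, hv, Finset.mem_univ v⟩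
  obtain ⟨W, hW, hWc⟩ := Nat.sInf_mem hne
  set W' : Finset X := Finset.univ.filter (fun p => e p ∉ W) with hW'
  have hlt : W'.card < t := by
    by_contra h
    push Not at h
    obtain ⟨S, hSW, hS, hSl⟩ := hF W' h
    obtain ⟨v, hv, hvW⟩ := hW _ (hfacet S hS hSl)
    obtain ⟨p, hp, rfl⟩ := Finset.mem_map.1 hv
    have := hSW hp
    simp [hW'] at this
    exact this hvW
  have hcount : Fintype.card X ≤ W'.card + W.card := by
    have h1 : (Finset.univ : Finset X) = W' ∪ Finset.univ.filter (fun p => e p ∈ W) := by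
      ext p; by_cases h : e p ∈ W <;> simp [hW', h]
    have h2 : (Finset.univ.filter (fun p => e p ∈ W)).card ≤ W.card := by
      rw [← Finset.card_map e]
      apply Finset.card_le_card
      intro v hv
      obtain ⟨p, hp, rfl⟩ := Finset.mem_map.1 hv
      simpa using hp
    calc Fintype.card X = (Finset.univ : Finset X).card := (Finset.card_univ).symm
      _ ≤ W'.card + (Finset.univ.filter (fun p => e p ∈ W)).card := by
        conv_lhs => rw [h1]
        exact Finset.card_union_le _ _
      _ ≤ W'.card + W.card := by omega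
  have hT : transversalNumber (boundaryComplex Q hQ) = W.card := hWc.symm
  rw [hT]
  have : Fintype.card X ≤ t + W.card := by omega
  have : (Fintype.card X : ℝ) ≤ t + W.card := by exact_mod_cast this
  linarith

end Pool.Agent.Lib.MP_f8b1fe_co
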