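import Mathlib
import Pool.Agent.Lib.MP_f8b1fe_co.Build

set_option autoImplicit false

namespace Pool.Agent.Lib.MP_f8b1fe_co

open Set Filter Topology

variable {d : ℕ}

/-- homogeneous coordinate matrix -/
noncomputable def hmat (p : Fin (d + 1) → Eu d) : Matrix (Fin (d + 1)) (Fin (d + 1)) ℝ :=
  Matrix.of fun i => Fin.cons 1 (fun j => p i j)

lemma affineIndependent_of_det (p : Fin (d + 1) → Eu d) (h : (hmat p).det ≠ 0) :
    AffineIndependent ℝ p := by
  classical
  rw [affineIndependent_iff]
  intro s w hw0 hw1
  let w' : Fin (d + 1) → ℝ := fun i => if i ∈ s then w i else 0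
  have hvec : Matrix.vecMul w' (hmat p) = 0 := by
    ext j
    rw [Matrix.vecMul, dotProduct]
    simp only [w', ite_mul, zero_mul]
    rw [Finset.sum_ite_mem, Finset.univ_inter]
    induction j using Fin.cases with
    | zero => simpa [hmat] using hw0
    | succ j =>
      have := congrArg (fun x : Eu d => x j) hw1
      simpa [hmat, Finset.sum_apply] using this
  have h0 := Matrix.eq_zero_of_vecMul_eq_zero h hvec
  intro i hi
  have := congrFun h0 i
  simpa [w', hi] using this

/-- the moment curve -/
noncomputable def moment (d : ℕ) (s : ℝ) : Eu d := WithLp.toLp 2 (fun i : Fin d => s ^ ((i : ℕ) + 1))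

lemma hmat_moment (s : Fin (d + 1) → ℝ) :
    hmat (fun i => moment d (s i)) = Matrix.vandermonde s := by
  ext i j
  induction j using Fin.cases with
  | zero => simp [hmat, Matrix.vandermonde]
  | succ j => simp [hmat, Matrix.vandermonde, moment]

lemma hmat_combo (p q : Fin (d + 1) → Eu d) (t : ℝ) :
    hmat (fun i => p i + t • (q i - p i)) = hmat p + t • (hmat q - hmat p) := by
  ext i j
  induction j using Fin.cases with
  | zero => simp [hmat]
  | succ j => simp [hmat]

lemma eventually_det_ne (A V : Matrix (Fin (d + 1)) (Fin (d + 1)) ℝ) (hV : V.det ≠ 0) :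
    ∀ᶠ t in 𝓝[>] (0 : ℝ), (A + t • (V - A)).det ≠ 0 := by
  classical
  let P : Polynomial ℝ :=
    (A.map Polynomial.C + (Polynomial.X : Polynomial ℝ) • (V - A).map Polynomial.C).det
  have heval : ∀ t : ℝ, P.eval t = (A + t • (V - A)).det := by
    intro t
    have h1 : P.eval t = Polynomial.evalRingHom t P := rfl
    rw [h1]
    simp only [P]
    rw [RingHom.map_det]
    congr 1
    ext i j
    simp
  have hP : P ≠ 0 := by
    intro h
    have h1 := heval 1
    rw [h] at h1
    simp at h1
    exact hV h1.symm
  have hfin : {x | P.IsRoot x}.Finite := Polynomial.finite_setOfPred_isRoot hP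
  have hclosed : IsClosed ({x | P.IsRoot x} \ {0}) := (hfin.subset sdiff_subset).isClosed
  have hnhds : ({x | P.IsRoot x} \ {0})ᶜ ∈ 𝓝 (0 : ℝ) := by
    apply hclosed.isOpen_compl.mem_nhds
    simp
  filter_upwards [mem_nhdsWithin_of_mem_nhds hnhds, self_mem_nhdsWithin] with t ht ht0
  intro hdet
  apply ht
  refine ⟨?_, ?_⟩
  · change P.eval t = 0
    rw [heval, hdet]
  · exact ne_of_gt ht0

/-- arbitrarily small perturbations into general position -/
theorem exists_genPos {X : Type} [Fintype X] (q₀ : X → Eu d) :
    ∃ μ : X → Eu d, ∀ᶠ t in 𝓝[>] (0 : ℝ), GenPos (fun p => q₀ p + t • (μ p - q₀ p)) := by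
  classical
  let s : X → ℝ := fun p => ((Fintype.equivFin X p : ℕ) : ℝ)
  have hs : Function.Injective s := by
    intro a b h
    have h1 : ((Fintype.equivFin X a : ℕ)) = (Fintype.equivFin X b : ℕ) := Nat.cast_injective h
    exact (Fintype.equivFin X).injective (Fin.ext h1)
  refine ⟨fun p => moment d (s p), ?_⟩
  unfold GenPos
  rw [eventually_all]
  intro S
  by_cases hS : S.card = d + 1
  · let e : Fin (d + 1) ≃ S := (Fintype.equivFinOfCardEq (by simpa using hS)).symm
    have hV : (hmat (fun i => moment d (s (e i)))).det ≠ 0 := by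
      rw [hmat_moment, Matrix.det_vandermonde_ne_zero_iff]
      exact hs.comp (Subtype.val_injective.comp e.injective)
    have h := eventually_det_ne (hmat (fun i => q₀ (e i))) _ hV
    filter_upwards [h] with t ht _
    rw [← hmat_combo] at ht
    have h2 := affineIndependent_of_det _ ht
    rw [← affineIndependent_equiv e]
    exact h2
  · exact Eventually.of_forall fun t h => absurd h hS

end Pool.Agent.Lib.MP_f8b1fe_co
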