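import Mathlib
import Pool.Agent.Lib.MP_f8b1fe_co.GenPosPert
import Pool.Agent.Lib.MP_f8b1fe_co.Core

set_option autoImplicit false

namespace Pool.Agent.Lib.MP_f8b1fe_co

open Set Filter Topology

variable {m : ℕ}

/-- a strict supporting hyperplane through exactly the points `σ i` -/
def StrictFacet {d : ℕ} {X : Type} (q : X → Eu d) (σ : Fin d → X) : Prop :=
  ∃ (l : StrongDual ℝ (Eu d)) (c : ℝ), (∀ i, l (q (σ i)) = c) ∧
    ∀ p, (∀ i, σ i ≠ p) → l (q p) < c

lemma strictFacet_eventually {d : ℕ} {X : Type} [Finite X] (q₀ : X → Eu d) (σ : Fin d → X)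
    (hlin : LinearIndependent ℝ (fun i => ((q₀ (σ i), 1) : Eu d × ℝ)))
    (g₀ : Eu d × ℝ →L[ℝ] ℝ) (h0 : ∀ i, g₀ (q₀ (σ i), 1) = 0)
    (hpos : ∀ p, (∀ i, σ i ≠ p) → 0 < g₀ (q₀ p, 1)) (p₀ : X) (hp₀ : ∀ i, σ i ≠ p₀) :
    ∀ᶠ q in 𝓝 q₀, StrictFacet q σ := by
  have hfin : Fintype.card (Fin d) + 1 = Module.finrank ℝ (Eu d × ℝ) := by
    simp [Module.finrank_prod]
  obtain ⟨G, hGc, hG0, hGev⟩ := exists_continuous_hyperplane hfin σ ((q₀ p₀, 1) : Eu d × ℝ)
    (fun p => ((q₀ p, 1) : Eu d × ℝ)) g₀ h0 hlin (hpos p₀ hp₀).ne'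
  -- pull back along q ↦ (q, 1)
  let Λ : (X → Eu d) → (X → Eu d × ℝ) := fun q p => (q p, 1)
  have hΛ : Continuous Λ := by
    apply continuous_pi
    intro p
    fun_prop
  have hΛ0 : Λ q₀ = fun p => ((q₀ p, 1) : Eu d × ℝ) := rfl
  have hc : ContinuousAt (fun q => G (Λ q)) q₀ :=
    ContinuousAt.comp (g := G) (f := Λ) (by rw [hΛ0]; exact hGc) hΛ.continuousAt
  have h1 : ∀ᶠ q in 𝓝 q₀, ∀ i, G (Λ q) (Λ q (σ i)) = 0 := by
    have : Tendsto Λ (𝓝 q₀) (𝓝 (Λ q₀)) := hΛ.tendsto q₀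
    exact this.eventually hGev
  have h2 : ∀ᶠ q in 𝓝 q₀, ∀ p, (∀ i, σ i ≠ p) → 0 < G (Λ q) (Λ q p) := by
    rw [eventually_all]
    intro p
    by_cases hp : ∀ i, σ i ≠ p
    · have hc2 : ContinuousAt (fun q => G (Λ q) (Λ q p)) q₀ :=
        hc.clm_apply ((continuous_apply p).comp hΛ).continuousAt
      have h3 : 0 < G (Λ q₀) (Λ q₀ p) := by
        rw [hΛ0, hG0]; exact hpos p hp
      exact (hc2.eventually (lt_mem_nhds h3)).mono fun q hq _ => hq
    · exact Eventually.of_forall fun q h => absurd h hp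
  filter_upwards [h1, h2] with q hq1 hq2
  set g := G (Λ q) with hg
  have hsplit : ∀ z : Eu d, g (z, 1) = g (z, 0) + g (0, 1) := by
    intro z
    rw [← map_add]; simp
  refine ⟨-(g.comp (ContinuousLinearMap.inl ℝ (Eu d) ℝ)), g (0, 1), ?_, ?_⟩
  · intro i
    have := hq1 i
    change g (q (σ i), 1) = 0 at this
    rw [hsplit] at this
    change -(g (q (σ i), 0)) = g (0, 1)
    linarith
  · intro p hp
    have := hq2 p hp
    change 0 < g (q p, 1) at this
    rw [hsplit] at this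
    change -(g (q p, 0)) < g (0, 1)
    linarith

/-- The polytopes: for `d = m + 3 ≥ 4`, simplicial `d`-polytopes with arbitrarily many vertices and
transversal ratio arbitrarily close to `1`. -/
theorem exists_polytope (hm : 0 < m) (ε : ℝ) (hε : 0 < ε) (n₀ : ℕ) :
    ∃ (Q : Set (Eu (m + 3))) (hQ : IsSimplicialPolytope Q),
      n₀ ≤ Nat.card (Q.extremePoints ℝ) ∧ 1 - ε ≤ transversalRatio (boundaryComplex Q hQ) := by
  classical
  obtain ⟨n₁, hn₁⟩ := exists_nat_gt (2 / ε)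
  obtain ⟨X, fX, x, y, hcard, hinj, hW⟩ := core hm (ε / 2) (by linarith)
    (max n₀ (max n₁ (m + 5)))
  have hcard0 : n₀ ≤ Fintype.card X := (le_max_left _ _).trans hcard
  have hcard1 : n₁ ≤ Fintype.card X := ((le_max_left _ _).trans (le_max_right _ _)).trans hcard
  have hcard2 : m + 5 ≤ Fintype.card X :=
    ((le_max_right _ _).trans (le_max_right _ _)).trans hcard
  -- linear iso
  have hfr : Module.finrank ℝ (Eu (m + 3)) = Module.finrank ℝ (ℝ × Eu m × ℝ × ℝ) := by
    simp [Module.finrank_prod]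
    ring
  let Ψ : Eu (m + 3) ≃L[ℝ] (ℝ × Eu m × ℝ × ℝ) := ContinuousLinearEquiv.ofFinrankEq hfr
  let q₀ : X → Eu (m + 3) := fun p => Ψ.symm (‖x p‖ ^ 2, x p, y p ^ 2, y p)
  let Λ : Eu (m + 3) × ℝ →ₗ[ℝ] Wm m :=
    { toFun := fun z => ((Ψ z.1).1, (Ψ z.1).2.1, (Ψ z.1).2.2.1, (Ψ z.1).2.2.2, z.2)
      map_add' := fun a b => by simp
      map_smul' := fun c a => by simp }
  have hΛ : ∀ p, Λ (q₀ p, 1) = hom (x p) (y p) := by
    intro p
    simp [Λ, q₀, hom]
  let ΛL : Eu (m + 3) × ℝ →L[ℝ] Wm m := LinearMap.toContinuousLinearMap Λ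
  have hΛL : ∀ z, ΛL z = Λ z := fun z => rfl
  -- injectivity of edges and facets
  have hfac : ∀ σ : Fin (m + 3) → X, GoodEdge (fun p => hom (x p) (y p)) σ →
      ∀ᶠ q in 𝓝 q₀, StrictFacet q σ := by
    rintro σ ⟨hlin, g, h0, hpos, -, -⟩
    obtain ⟨p₀, hp₀⟩ : ∃ p₀, ∀ i, σ i ≠ p₀ := by
      by_contra hcon
      push Not at hcon
      have hsurj : Function.Surjective σ := hcon
      have := Fintype.card_le_of_surjective σ hsurj
      rw [Fintype.card_fin] at this
      omega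
    apply strictFacet_eventually q₀ σ _ (g.comp ΛL) _ _ p₀ hp₀
    · apply LinearIndependent.of_comp Λ
      have : (⇑Λ ∘ fun i => ((q₀ (σ i), 1) : Eu (m + 3) × ℝ)) = fun i => hom (x (σ i)) (y (σ i)) := by
        funext i
        exact hΛ (σ i)
      rw [this]; exact hlin
    · intro i
      change g (Λ (q₀ (σ i), 1)) = 0
      rw [hΛ]; exact h0 i
    · intro p hp
      change 0 < g (Λ (q₀ p, 1))
      rw [hΛ]; exact hpos p hp
  have hfac' : ∀ᶠ q in 𝓝 q₀, ∀ σ : Fin (m + 3) → X, GoodEdge (fun p => hom (x p) (y p)) σ →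
      StrictFacet q σ := by
    rw [eventually_all]
    intro σ
    by_cases h : GoodEdge (fun p => hom (x p) (y p)) σ
    · exact (hfac σ h).mono fun q hq _ => hq
    · exact Eventually.of_forall fun q h' => absurd h' h
  -- vertices
  have hvert : ∀ᶠ q in 𝓝 q₀, ∀ p, ∃ l : StrongDual ℝ (Eu (m + 3)), ∀ p', p' ≠ p →
      l (q p') < l (q p) := by
    rw [eventually_all]
    intro p
    -- the functional
    let L : (ℝ × Eu m × ℝ × ℝ) →ₗ[ℝ] ℝ :=
      { toFun := fun z => -z.1 + 2 * inner ℝ (x p) z.2.1 - z.2.2.1 + 2 * y p * z.2.2.2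
        map_add' := fun a b => by simp [inner_add_right]; ring
        map_smul' := fun c a => by simp [inner_smul_right]; ring }
    let l : StrongDual ℝ (Eu (m + 3)) := (LinearMap.toContinuousLinearMap L).comp
      (Ψ : Eu (m + 3) →L[ℝ] (ℝ × Eu m × ℝ × ℝ))
    have hl : ∀ p', l (q₀ p') = -‖x p'‖ ^ 2 + 2 * inner ℝ (x p) (x p') - y p' ^ 2 +
        2 * y p * y p' := by
      intro p'
      change L (Ψ (Ψ.symm _)) = _
      rw [ContinuousLinearEquiv.apply_symm_apply]
      rfl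
    have hlt : ∀ p', p' ≠ p → l (q₀ p') < l (q₀ p) := by
      intro p' hp'
      rw [hl, hl, real_inner_self_eq_norm_sq]
      have h1 : ‖x p' - x p‖ ^ 2 = ‖x p'‖ ^ 2 - 2 * inner ℝ (x p) (x p') + ‖x p‖ ^ 2 := by
        rw [norm_sub_sq_real, real_inner_comm]
      have h2 : 0 < ‖x p' - x p‖ ^ 2 + (y p' - y p) ^ 2 := by
        by_contra hcon
        push Not at hcon
        have a1 : 0 ≤ ‖x p' - x p‖ ^ 2 := by positivity
        have a2 : 0 ≤ (y p' - y p) ^ 2 := by positivity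
        have a3 : ‖x p' - x p‖ ^ 2 = 0 := by linarith
        have a4 : (y p' - y p) ^ 2 = 0 := by linarith
        have a5 : x p' = x p := by
          have := pow_eq_zero_iff (two_ne_zero) |>.1 a3
          exact sub_eq_zero.1 (norm_eq_zero.1 this)
        have a6 : y p' = y p := by
          have := pow_eq_zero_iff (two_ne_zero) |>.1 a4
          linarith
        exact hp' (hinj (Prod.ext a5 a6))
      nlinarith
    have hev : ∀ᶠ q in 𝓝 q₀, ∀ p', p' ≠ p → l (q p') < l (q p) := by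
      rw [eventually_all]
      intro p'
      by_cases hp' : p' = p
      · exact Eventually.of_forall fun q h => absurd hp' h
      · have hc : Continuous (fun q : X → Eu (m + 3) => l (q p) - l (q p')) := by fun_prop
        have h3 : 0 < l (q₀ p) - l (q₀ p') := sub_pos.2 (hlt p' hp')
        exact (hc.continuousAt.eventually (lt_mem_nhds h3)).mono fun q hq _ => sub_pos.1 hq
    exact hev.mono fun q hq => ⟨l, hq⟩
  -- general position
  obtain ⟨μ, hμ⟩ := exists_genPos q₀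
  have hpath : Tendsto (fun t : ℝ => fun p => q₀ p + t • (μ p - q₀ p)) (𝓝[>] 0) (𝓝 q₀) := by
    have hc : Continuous (fun t : ℝ => fun p => q₀ p + t • (μ p - q₀ p)) := by
      apply continuous_pi
      intro p
      fun_prop
    have := hc.tendsto 0
    simp only [zero_smul, add_zero] at this
    exact this.mono_left nhdsWithin_le_nhds
  obtain ⟨t, ⟨ht1, ht2⟩, ht3⟩ := ((hμ.and (hpath.eventually hfac')).and
    (hpath.eventually hvert)).exists
  set q : X → Eu (m + 3) := fun p => q₀ p + t • (μ p - q₀ p) with hq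
  -- build
  obtain ⟨Q, hQ, hQc, hQT⟩ := build (by omega : 1 ≤ m + 3) q (by omega) ht1 ht3
    ⌈ε / 2 * Fintype.card X⌉₊ (by
      intro W hWc
      obtain ⟨σ, hσW, hσ⟩ := hW W (Nat.ceil_le.1 hWc)
      obtain ⟨l, c, hl1, hl2⟩ := ht2 σ hσ
      have hσinj : Function.Injective σ := by
        have := hσ.1.injective
        intro a b hab
        apply this
        simp only [hab]
      refine ⟨Finset.univ.image σ, ?_, ?_, l, c, ?_, ?_⟩
      · intro p hp
        obtain ⟨i, -, rfl⟩ := Finset.mem_image.1 hp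
        exact hσW i
      · rw [Finset.card_image_of_injective _ hσinj, Finset.card_univ, Fintype.card_fin]
      · intro s hs
        obtain ⟨i, -, rfl⟩ := Finset.mem_image.1 hs
        exact hl1 i
      · intro p hp
        apply hl2
        intro i hi
        exact hp (Finset.mem_image.2 ⟨i, Finset.mem_univ i, hi⟩))
  refine ⟨Q, hQ, by rw [hQc]; exact hcard0, ?_⟩
  rw [transversalRatio, hQc]
  have hn : (0 : ℝ) < Fintype.card X := by
    have : 0 < Fintype.card X := by omega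
    exact_mod_cast this
  rw [le_div_iff₀ hn]
  have h1 : (⌈ε / 2 * Fintype.card X⌉₊ : ℝ) < ε / 2 * Fintype.card X + 1 :=
    Nat.ceil_lt_add_one (by positivity)
  have h2 : 1 ≤ ε / 2 * Fintype.card X := by
    have h3 : 2 / ε < Fintype.card X := lt_of_lt_of_le hn₁ (by exact_mod_cast hcard1)
    rw [div_lt_iff₀ hε] at h3
    linarith
  linarith

end Pool.Agent.Lib.MP_f8b1fe_co
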